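import Mathlib

open Set Metric MeasureTheory MeasureTheory.Measure Filter Topology
open scoped NNReal ENNReal

namespace Pool.Agent.Results.MP_928b88_gt.FlatRegularity

variable {n m : ℕ}

/-- `μH[m]`-almost all of `S` is covered by countably many Lipschitz images of subsets of
`ℝ ^ m`. -/
def IsRectifiable (m : ℕ) (S : Set (Fin n → ℝ)) : Prop :=
  ∃ (A : ℕ → Set (Fin m → ℝ)) (g : ℕ → (Fin m → ℝ) → (Fin n → ℝ)),
    (∀ i, ∃ L : ℝ≥0, LipschitzOnWith L (g i) (A i)) ∧ μH[m] (S \ ⋃ i, g i '' A i) = 0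

/-- Minimizing sets in `ℓ^∞_n`. -/
structure IsMinimizing (m : ℕ) (S : Set (Fin n → ℝ)) : Prop where
  closed : IsClosed S
  rectifiable : IsRectifiable m S
  minimal : ∀ (c : Fin n → ℝ) (r : ℝ) (f : (Fin n → ℝ) → (Fin n → ℝ)),
    (∃ L, LipschitzWith L f) → (∀ x ∉ closedBall c r, f x = x) →
    MapsTo f (closedBall c r) (closedBall c r) →
    μH[m] (closedBall c r ∩ S) ≤ μH[m] (f '' (closedBall c r ∩ S))

/-- `G` is a Lipschitz graph over the linear subspace `P`. -/
def IsLipschitzGraph (P : Submodule ℝ (Fin n → ℝ)) (G : Set (Fin n → ℝ)) : Prop :=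
  ∃ W : Submodule ℝ (Fin n → ℝ), IsCompl P W ∧
    ∃ (D : Set (Fin n → ℝ)) (g : (Fin n → ℝ) → (Fin n → ℝ)), D ⊆ P ∧ (∀ y ∈ D, g y ∈ W) ∧
      (∃ L : ℝ≥0, LipschitzOnWith L g D) ∧ G = (fun y => y + g y) '' D

/-- `T` is an `m`-dimensional linear subspace that is the graph, over the coordinate plane of some
set `I` of `m` coordinates, of a linear map of norm less than one. -/
def StrictlyFlat (m : ℕ) (T : Submodule ℝ (Fin n → ℝ)) : Prop :=
  Module.finrank ℝ T = m ∧ ∃ (I : Finset (Fin n)) (lam : ℝ), I.card = m ∧ lam < 1 ∧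
    ∀ w ∈ T, ∀ j ∉ I, ∃ i ∈ I, |w j| ≤ lam * |w i|

/-- `S` is tangent to `x + T` at `x`. -/
def IsTangentPlane (S : Set (Fin n → ℝ)) (x : Fin n → ℝ) (T : Submodule ℝ (Fin n → ℝ)) : Prop :=
  ∀ ε > 0, ∀ᶠ x' in 𝓝[S] x, infDist (x' - x) (T : Set (Fin n → ℝ)) ≤ ε * ‖x' - x‖

/-- The coordinate projection attached to `e`. -/
def pr (e : Fin m → Fin n) (x : Fin n → ℝ) : Fin m → ℝ := fun i => x (e i)

theorem pr_lip (e : Fin m → Fin n) (x x' : Fin n → ℝ) : ‖pr e x - pr e x'‖ ≤ ‖x - x'‖ := by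
  rw [pi_norm_le_iff_of_nonneg (norm_nonneg _)]
  intro i
  exact norm_le_pi_norm (x - x') (e i)

theorem pr_lipschitz (e : Fin m → Fin n) : LipschitzWith 1 (pr e) := by
  apply LipschitzWith.of_dist_le_mul
  intro x y
  rw [NNReal.coe_one, one_mul, dist_eq_norm, dist_eq_norm]
  exact pr_lip e x y

/-- coordinatewise clamp to the closed cube -/
def clampC (c : Fin n → ℝ) (r : ℝ) (x : Fin n → ℝ) : Fin n → ℝ :=
  fun i => max (c i - r) (min (c i + r) (x i))

theorem clampC_coord_lip (a b s t : ℝ) : |max a (min b s) - max a (min b t)| ≤ |s - t| := by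
  have h1 := abs_max_sub_max_le_abs (min b s) (min b t) a
  have h2 := abs_min_sub_min_le_max b s b t
  rw [sub_self, abs_zero] at h2
  rw [max_comm a, max_comm a]
  refine h1.trans (h2.trans ?_)
  exact max_le (abs_nonneg _) le_rfl

theorem clampC_lip (c : Fin n → ℝ) (r : ℝ) (x y : Fin n → ℝ) :
    dist (clampC c r x) (clampC c r y) ≤ dist x y := by
  rw [dist_pi_le_iff dist_nonneg]
  intro i
  refine le_trans ?_ (dist_le_pi_dist x y i)
  rw [Real.dist_eq, Real.dist_eq]
  exact clampC_coord_lip _ _ _ _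

theorem mem_cube_iff {c : Fin n → ℝ} {r : ℝ} (hr : 0 ≤ r) {x : Fin n → ℝ} :
    x ∈ closedBall c r ↔ ∀ i, |x i - c i| ≤ r := by
  rw [mem_closedBall, dist_pi_le_iff hr]
  rfl

theorem clampC_mem (c : Fin n → ℝ) {r : ℝ} (hr : 0 ≤ r) (x : Fin n → ℝ) :
    clampC c r x ∈ closedBall c r := by
  rw [mem_cube_iff hr]
  intro i
  rw [abs_le]
  have h1 : c i - r ≤ clampC c r x i := le_max_left _ _
  have h2 : clampC c r x i ≤ c i + r := max_le (by linarith) (min_le_left _ _)
  constructor <;> linarith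

theorem clampC_of_mem {c : Fin n → ℝ} {r : ℝ} (hr : 0 ≤ r) {x : Fin n → ℝ}
    (hx : x ∈ closedBall c r) : clampC c r x = x := by
  rw [mem_cube_iff hr] at hx
  ext i
  have := abs_le.1 (hx i)
  rw [clampC, min_eq_right (by linarith), max_eq_right (by linarith)]

theorem dist_clampC_le {c : Fin n → ℝ} {r : ℝ} (hr : 0 ≤ r) {x y : Fin n → ℝ}
    (hx : x ∈ closedBall c r) : dist (clampC c r y) y ≤ dist x y := by
  rw [dist_pi_le_iff dist_nonneg]
  intro i
  refine le_trans ?_ (dist_le_pi_dist x y i)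
  rw [mem_cube_iff hr] at hx
  have hi := abs_le.1 (hx i)
  rw [Real.dist_eq, Real.dist_eq]
  unfold clampC
  rcases le_total (y i) (c i + r) with h1 | h1
  · rw [min_eq_right h1]
    rcases le_total (c i - r) (y i) with h2 | h2
    · rw [max_eq_right h2, sub_self, abs_zero]
      exact abs_nonneg _
    · rw [max_eq_left h2, abs_of_nonneg (by linarith), abs_of_nonneg (by linarith)]
      linarith
  · rw [min_eq_left h1, max_eq_right (by linarith), abs_of_nonpos (by linarith),
      abs_of_nonpos (by linarith)]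
    linarith

/-- The competitor lemma: a Lipschitz map defined on `K = C ∩ S`, with values in `C`, which only
moves points at distance at least `ρ` from the complement of `C`, is the restriction of an
admissible deformation. -/
theorem competitor {c : Fin n → ℝ} {r ρ : ℝ} (hr : 0 ≤ r) (hρ : 0 < ρ) {K : Set (Fin n → ℝ)}
    (hK : K ⊆ closedBall c r) {f : (Fin n → ℝ) → (Fin n → ℝ)} {L : ℝ≥0}
    (hf : LipschitzOnWith L f K) (hmaps : MapsTo f K (closedBall c r))
    (hmove : ∀ x ∈ K, f x ≠ x → ∀ q ∉ closedBall c r, ρ ≤ dist x q) :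
    ∃ F : (Fin n → ℝ) → (Fin n → ℝ), (∃ L', LipschitzWith L' F) ∧
      (∀ x ∉ closedBall c r, F x = x) ∧ MapsTo F (closedBall c r) (closedBall c r) ∧
      EqOn F f K := by
  classical
  -- step 1: glue with the identity outside the cube
  let g : (Fin n → ℝ) → (Fin n → ℝ) := fun x => if x ∈ closedBall c r then f x else x
  have hgK : ∀ x ∈ K, g x = f x := fun x hx => if_pos (hK hx)
  have hgC : ∀ x ∉ closedBall c r, g x = x := fun x hx => if_neg hx
  let L1 : ℝ≥0 := max L (1 + ⟨2 * r / ρ, by positivity⟩)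
  have hL1 : (L : ℝ) ≤ L1 := by exact_mod_cast le_max_left L _
  have hL2 : 1 + 2 * r / ρ ≤ L1 := by
    have : (1 + ⟨2 * r / ρ, by positivity⟩ : ℝ≥0) ≤ L1 := le_max_right L _
    exact_mod_cast this
  have hL3 : (1 : ℝ) ≤ L1 := by
    have : 0 ≤ 2 * r / ρ := by positivity
    linarith
  have hcross : ∀ x ∈ K, ∀ q ∉ closedBall c r, dist (f x) q ≤ L1 * dist x q := by
    intro x hx q hq
    by_cases hfx : f x = x
    · rw [hfx]
      have := dist_nonneg (x := x) (y := q)
      nlinarith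
    · have h1 := hmove x hx hfx q hq
      have h2 : dist (f x) x ≤ 2 * r := by
        have h3 := mem_closedBall.1 (hmaps hx)
        have h4 := mem_closedBall.1 (hK hx)
        calc dist (f x) x ≤ dist (f x) c + dist x c := dist_triangle_right _ _ _
          _ ≤ 2 * r := by linarith
      have h5 : 2 * r ≤ 2 * r / ρ * dist x q := by
        rw [div_mul_eq_mul_div, le_div_iff₀ hρ]
        have : 0 ≤ 2 * r := by linarith
        nlinarith
      calc dist (f x) q ≤ dist (f x) x + dist x q := dist_triangle _ _ _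
        _ ≤ (1 + 2 * r / ρ) * dist x q := by linarith
        _ ≤ L1 * dist x q := by
          have := dist_nonneg (x := x) (y := q)
          nlinarith
  have hgL : LipschitzOnWith L1 g (K ∪ (closedBall c r)ᶜ) := by
    apply LipschitzOnWith.of_dist_le_mul
    rintro x (hx | hx) y (hy | hy)
    · rw [hgK x hx, hgK y hy]
      refine (hf.dist_le_mul x hx y hy).trans ?_
      have := dist_nonneg (x := x) (y := y)
      nlinarith
    · rw [hgK x hx, hgC y hy]
      exact hcross x hx y hy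
    · rw [hgC x hx, hgK y hy, dist_comm, dist_comm x y]
      exact hcross y hy x hx
    · rw [hgC x hx, hgC y hy]
      have := dist_nonneg (x := x) (y := y)
      nlinarith
  obtain ⟨G, hG, hGg⟩ := hgL.extend_pi
  let F : (Fin n → ℝ) → (Fin n → ℝ) := fun x => if x ∈ closedBall c r then clampC c r (G x) else x
  have hF1 : ∀ x ∈ closedBall c r, F x = clampC c r (G x) := fun x hx => if_pos hx
  have hF2 : ∀ x ∉ closedBall c r, F x = x := fun x hx => if_neg hx
  have hFcross : ∀ x ∈ closedBall c r, ∀ q ∉ closedBall c r,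
      dist (clampC c r (G x)) q ≤ (L1 + 1) * dist x q := by
    intro x hx q hq
    have hGq : G q = q := by
      rw [← hGg (Or.inr hq), hgC q hq]
    calc dist (clampC c r (G x)) q ≤ dist (clampC c r (G x)) (clampC c r q) +
          dist (clampC c r q) q := dist_triangle _ _ _
      _ ≤ dist (G x) q + dist x q := add_le_add (clampC_lip c r _ _) (dist_clampC_le hr hx)
      _ = dist (G x) (G q) + dist x q := by rw [hGq]
      _ ≤ L1 * dist x q + dist x q := by
        gcongr
        exact hG.dist_le_mul x q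
      _ = (L1 + 1) * dist x q := by ring
  refine ⟨F, ⟨L1 + 1, ?_⟩, hF2, ?_, ?_⟩
  · apply LipschitzWith.of_dist_le_mul
    intro x y
    rw [NNReal.coe_add, NNReal.coe_one]
    by_cases hx : x ∈ closedBall c r <;> by_cases hy : y ∈ closedBall c r
    · rw [hF1 x hx, hF1 y hy]
      refine (clampC_lip c r _ _).trans ((hG.dist_le_mul x y).trans ?_)
      have := dist_nonneg (x := x) (y := y)
      nlinarith
    · rw [hF1 x hx, hF2 y hy]
      exact hFcross x hx y hy
    · rw [hF2 x hx, hF1 y hy, dist_comm, dist_comm x y]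
      exact hFcross y hy x hx
    · rw [hF2 x hx, hF2 y hy]
      have := dist_nonneg (x := x) (y := y)
      nlinarith
  · intro x hx
    rw [hF1 x hx]
    exact clampC_mem c hr _
  · intro x hx
    rw [hF1 x (hK hx), ← hGg (Or.inl hx), hgK x hx, clampC_of_mem hr (hmaps hx)]


/-- The standing hypotheses of the interior estimate: on the cube with centre `x₀` and radius `r`,
the set `S` is minimizing, has finite measure and is `h`-close to the graph of `ell`. -/
structure Setup (e : Fin m → Fin n) (S : Set (Fin n → ℝ)) (x₀ : Fin n → ℝ) (r h lam : ℝ)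
    (ell : Fin n → (Fin m → ℝ) → ℝ) : Prop where
  inj : Function.Injective e
  closed : IsClosed S
  minimal : ∀ f : (Fin n → ℝ) → (Fin n → ℝ), (∃ L, LipschitzWith L f) →
    (∀ x ∉ closedBall x₀ r, f x = x) → MapsTo f (closedBall x₀ r) (closedBall x₀ r) →
    μH[m] (closedBall x₀ r ∩ S) ≤ μH[m] (f '' (closedBall x₀ r ∩ S))
  fin : μH[m] (closedBall x₀ r ∩ S) < ∞
  r_pos : 0 < r
  h_pos : 0 < h
  lam_nonneg : 0 ≤ lam
  hlam : 16 * h ≤ (1 - lam) * r
  ell_lip : ∀ j, ∀ y y' : Fin m → ℝ, |ell j y - ell j y'| ≤ lam * ‖y - y'‖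
  close : ∀ x ∈ closedBall x₀ r ∩ S, ∀ j ∉ range e, |x j - ell j (pr e x)| ≤ h
  mem : x₀ ∈ S

/-- The graph map of a family of functions over the coordinate plane attached to `e`. -/
noncomputable def gr (e : Fin m → Fin n) (v : Fin n → (Fin m → ℝ) → ℝ) (y : Fin m → ℝ) :
    Fin n → ℝ := Function.extend e y (fun j => v j y)

theorem gr_apply {e : Fin m → Fin n} (he : Function.Injective e)
    (v : Fin n → (Fin m → ℝ) → ℝ) (y : Fin m → ℝ) (i : Fin m) : gr e v y (e i) = y i :=
  he.extend_apply _ _ _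

theorem gr_apply' {e : Fin m → Fin n} (v : Fin n → (Fin m → ℝ) → ℝ) (y : Fin m → ℝ) {j : Fin n}
    (hj : j ∉ range e) : gr e v y j = v j y :=
  Function.extend_apply' _ _ _ hj

theorem gr_lipschitz {e : Fin m → Fin n} (he : Function.Injective e)
    {v : Fin n → (Fin m → ℝ) → ℝ} (hv : ∀ j, ∀ y y' : Fin m → ℝ, |v j y - v j y'| ≤ ‖y - y'‖) :
    LipschitzWith 1 (gr e v) := by
  apply LipschitzWith.of_dist_le_mul
  intro y y'
  rw [NNReal.coe_one, one_mul, dist_pi_le_iff dist_nonneg, dist_eq_norm]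
  intro j
  by_cases hj : j ∈ range e
  · obtain ⟨i, rfl⟩ := hj
    rw [gr_apply he, gr_apply he, dist_eq_norm]
    exact norm_le_pi_norm (y - y') i
  · rw [gr_apply' v y hj, gr_apply' v y' hj, Real.dist_eq]
    exact hv j y y'

/-- The image of a set under a map with values in a `1`-Lipschitz graph. -/
theorem measure_image_gr_le {e : Fin m → Fin n} (he : Function.Injective e)
    {v : Fin n → (Fin m → ℝ) → ℝ} (hv : ∀ j, ∀ y y' : Fin m → ℝ, |v j y - v j y'| ≤ ‖y - y'‖)
    (A : Set (Fin m → ℝ)) : μH[m] (gr e v '' A) ≤ volume A := by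
  have h1 := (gr_lipschitz he hv).hausdorffMeasure_image_le (d := (m : ℝ)) (Nat.cast_nonneg m) A
  rw [ENNReal.coe_one, ENNReal.one_rpow, one_mul] at h1
  have h2 : (μH[(m : ℝ)] : Measure (Fin m → ℝ)) = volume := by
    have := hausdorffMeasure_pi_real (ι := Fin m)
    rwa [Fintype.card_fin] at this
  rwa [h2] at h1

theorem volume_image_le {σ : (Fin n → ℝ) → (Fin m → ℝ)} (hσ : LipschitzWith 1 σ)
    (P : Set (Fin n → ℝ)) : volume (σ '' P) ≤ μH[m] P := by
  have h1 := hσ.hausdorffMeasure_image_le (d := (m : ℝ)) (Nat.cast_nonneg m) P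
  rw [ENNReal.coe_one, ENNReal.one_rpow, one_mul] at h1
  have h2 : (μH[(m : ℝ)] : Measure (Fin m → ℝ)) = volume := by
    have := hausdorffMeasure_pi_real (ι := Fin m)
    rwa [Fintype.card_fin] at this
  rwa [h2] at h1

theorem exists_lip_of_components {K : Set (Fin n → ℝ)} (hK : IsCompact K)
    {F : (Fin n → ℝ) → (Fin n → ℝ)} (h : ∀ j, LocallyLipschitz (fun x => F x j)) :
    ∃ L, LipschitzOnWith L F K := by
  have h1 : ∀ j, ∃ L, LipschitzOnWith L (fun x => F x j) K := fun j =>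
    (h j).locallyLipschitzOn.exists_lipschitzOnWith_of_compact hK
  choose L hL using h1
  refine ⟨∑ j, L j, LipschitzOnWith.of_dist_le_mul ?_⟩
  intro x hx y hy
  rw [dist_pi_le_iff (by positivity)]
  intro j
  refine ((hL j).dist_le_mul x hx y hy).trans ?_
  gcongr
  exact Finset.single_le_sum (f := L) (fun i _ => zero_le) (Finset.mem_univ j)

theorem ll_mul {α : Type*} [PseudoMetricSpace α] {f g : α → ℝ} (hf : LocallyLipschitz f)
    (hg : LocallyLipschitz g) : LocallyLipschitz (fun x => f x * g x) := by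
  have h : LocallyLipschitz (fun p : ℝ × ℝ => p.1 * p.2) :=
    ContDiff.locallyLipschitz (𝕂 := ℝ) (by fun_prop)
  exact h.comp (hf.prodMk hg)

theorem ll_smul {α : Type*} [PseudoMetricSpace α] {f : α → ℝ} {g : α → (Fin m → ℝ)}
    (hf : LocallyLipschitz f) (hg : LocallyLipschitz g) :
    LocallyLipschitz (fun x => f x • g x) := by
  have h : LocallyLipschitz (fun p : ℝ × (Fin m → ℝ) => p.1 • p.2) :=
    ContDiff.locallyLipschitz (𝕂 := ℝ) (by fun_prop)
  exact h.comp (hf.prodMk hg)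

theorem ll_inv_max {α : Type*} [PseudoMetricSpace α] {f : α → ℝ} (hf : LocallyLipschitz f)
    {η : ℝ} (hη : 0 < η) : LocallyLipschitz (fun x => (max (f x) η)⁻¹) := by
  have h : LipschitzWith (NNReal.mk (η ^ 2)⁻¹ (by positivity)) (fun t : ℝ => (max t η)⁻¹) := by
    apply LipschitzWith.of_dist_le_mul
    intro a b
    have ha : η ≤ max a η := le_max_right _ _
    have hb : η ≤ max b η := le_max_right _ _
    have ha' : 0 < max a η := hη.trans_le ha
    have hb' : 0 < max b η := hη.trans_le hb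
    rw [Real.dist_eq, Real.dist_eq, NNReal.coe_mk, inv_sub_inv ha'.ne' hb'.ne', abs_div,
      abs_of_pos (mul_pos ha' hb'), div_eq_mul_inv, mul_comm]
    have h1 : |max b η - max a η| ≤ |a - b| := by
      rw [abs_sub_comm a b]
      exact abs_max_sub_max_le_abs _ _ _
    gcongr
    nlinarith
  exact h.locallyLipschitz.comp hf

section Main

variable {e : Fin m → Fin n} {S : Set (Fin n → ℝ)} {x₀ : Fin n → ℝ} {r h lam : ℝ}
  {ell : Fin n → (Fin m → ℝ) → ℝ}

theorem Setup.lam_le (H : Setup e S x₀ r h lam ell) : lam ≤ 1 := by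
  have h1 := H.hlam
  have h2 := H.h_pos
  have h3 := H.r_pos
  by_contra hcon
  push Not at hcon
  nlinarith

theorem Setup.h_le (H : Setup e S x₀ r h lam ell) : 16 * h ≤ r := by
  have h1 := H.hlam
  have h2 := H.lam_nonneg
  have h3 := H.r_pos
  nlinarith

theorem Setup.isCompact (H : Setup e S x₀ r h lam ell) : IsCompact (closedBall x₀ r ∩ S) :=
  (isCompact_closedBall x₀ r).inter_right H.closed

theorem Setup.x₀_mem (H : Setup e S x₀ r h lam ell) : x₀ ∈ closedBall x₀ r ∩ S :=
  ⟨mem_closedBall_self H.r_pos.le, H.mem⟩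

/-- Points of `S` stay away from the top and the bottom of the cube. -/
theorem Setup.height (H : Setup e S x₀ r h lam ell) {x : Fin n → ℝ}
    (hx : x ∈ closedBall x₀ r ∩ S) {j : Fin n} (hj : j ∉ range e) :
    |x j - x₀ j| ≤ r - 14 * h := by
  have h1 := H.close x hx j hj
  have h2 := H.close x₀ H.x₀_mem j hj
  have h3 := H.ell_lip j (pr e x) (pr e x₀)
  have h4 : ‖pr e x - pr e x₀‖ ≤ r := by
    refine (pr_lip e x x₀).trans ?_
    rw [← dist_eq_norm]
    exact mem_closedBall.1 hx.1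
  have h5 : lam * ‖pr e x - pr e x₀‖ ≤ lam * r := by
    have := H.lam_nonneg
    gcongr
  have h6 := H.hlam
  have h7 : x j - x₀ j = (x j - ell j (pr e x)) + (ell j (pr e x) - ell j (pr e x₀)) -
      (x₀ j - ell j (pr e x₀)) := by ring
  rw [abs_le] at *
  constructor <;> nlinarith

/-- If `x ∈ K` has horizontal distance at most `15 r / 16` from the centre then it is at
distance at least `h` from the complement of the cube. -/
theorem Setup.margin (H : Setup e S x₀ r h lam ell) {x : Fin n → ℝ}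
    (hx : x ∈ closedBall x₀ r ∩ S) (hw : ‖pr e x - pr e x₀‖ ≤ 15 * r / 16)
    {q : Fin n → ℝ} (hq : q ∉ closedBall x₀ r) : h ≤ dist x q := by
  have h1 := H.h_le
  have h2 := H.h_pos
  rw [mem_cube_iff H.r_pos.le] at hq
  push Not at hq
  obtain ⟨k, hk⟩ := hq
  have h3 : |x k - x₀ k| ≤ r - h := by
    by_cases hj : k ∈ range e
    · obtain ⟨i, rfl⟩ := hj
      have h4 : |x (e i) - x₀ (e i)| ≤ ‖pr e x - pr e x₀‖ := norm_le_pi_norm (pr e x - pr e x₀) i
      linarith
    · have := H.height hx hj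
      linarith
  have h4 : |x k - q k| ≤ dist x q := by
    have := dist_le_pi_dist x q k
    rwa [Real.dist_eq] at this
  have h5 : |q k - x₀ k| ≤ |x k - q k| + |x k - x₀ k| := by
    have : q k - x₀ k = -(x k - q k) + (x k - x₀ k) := by ring
    rw [this]
    refine (abs_add_le _ _).trans ?_
    rw [abs_neg]
  linarith

/-- Minimality for maps defined on `K` only. -/
theorem Setup.min' (H : Setup e S x₀ r h lam ell) {f : (Fin n → ℝ) → (Fin n → ℝ)} {L : ℝ≥0}
    (hf : LipschitzOnWith L f (closedBall x₀ r ∩ S))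
    (hmaps : MapsTo f (closedBall x₀ r ∩ S) (closedBall x₀ r))
    (hmove : ∀ x ∈ closedBall x₀ r ∩ S, f x ≠ x → ‖pr e x - pr e x₀‖ ≤ 15 * r / 16) :
    μH[m] (closedBall x₀ r ∩ S) ≤ μH[m] (f '' (closedBall x₀ r ∩ S)) := by
  obtain ⟨F, hF1, hF2, hF3, hF4⟩ := competitor H.r_pos.le H.h_pos (inter_subset_left) hf hmaps
    (fun x hx hfx q hq => H.margin hx (hmove x hx hfx) hq)
  have h1 := H.minimal F hF1 hF2 hF3
  rwa [image_congr hF4] at h1


/-- The upper barrier functions. -/
noncomputable def bar (ell : Fin n → (Fin m → ℝ) → ℝ) (y₀ : Fin m → ℝ) (r h : ℝ) (j : Fin n)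
    (y : Fin m → ℝ) : ℝ :=
  ell j y - 2 * h + 16 * h / r * max (‖y - y₀‖ - 3 * r / 4) 0

theorem Setup.bar_lip (H : Setup e S x₀ r h lam ell) (j : Fin n) (y y' : Fin m → ℝ) :
    |bar ell (pr e x₀) r h j y - bar ell (pr e x₀) r h j y'| ≤ ‖y - y'‖ := by
  have h1 := H.ell_lip j y y'
  have h2 : |max (‖y - pr e x₀‖ - 3 * r / 4) 0 - max (‖y' - pr e x₀‖ - 3 * r / 4) 0| ≤
      ‖y - y'‖ := by
    refine (abs_max_sub_max_le_abs _ _ 0).trans ?_
    have h3 : ‖y - pr e x₀‖ - 3 * r / 4 - (‖y' - pr e x₀‖ - 3 * r / 4) =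
      ‖y - pr e x₀‖ - ‖y' - pr e x₀‖ := by ring
    rw [h3]
    refine (abs_norm_sub_norm_le _ _).trans ?_
    rw [sub_sub_sub_cancel_right]
  have h3 : bar ell (pr e x₀) r h j y - bar ell (pr e x₀) r h j y' = (ell j y - ell j y') +
      16 * h / r * (max (‖y - pr e x₀‖ - 3 * r / 4) 0 - max (‖y' - pr e x₀‖ - 3 * r / 4) 0) := by
    unfold bar
    ring
  have h4 : 0 ≤ 16 * h / r := by
    have := H.h_pos
    have := H.r_pos
    positivity
  have h5 : 16 * h / r ≤ 1 - lam := by
    rw [div_le_iff₀ H.r_pos]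
    exact H.hlam
  have h6 : 0 ≤ 1 - lam := by linarith [H.lam_le]
  rw [h3]
  calc |(ell j y - ell j y') +
      16 * h / r * (max (‖y - pr e x₀‖ - 3 * r / 4) 0 - max (‖y' - pr e x₀‖ - 3 * r / 4) 0)|
      ≤ |ell j y - ell j y'| + |16 * h / r *
        (max (‖y - pr e x₀‖ - 3 * r / 4) 0 - max (‖y' - pr e x₀‖ - 3 * r / 4) 0)| := abs_add_le _ _
    _ ≤ lam * ‖y - y'‖ + (1 - lam) * ‖y - y'‖ := by
        rw [abs_mul, abs_of_nonneg h4]
        gcongr
    _ = ‖y - y'‖ := by ring

/-- The clamping map. -/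
noncomputable def clampB (e : Fin m → Fin n) (v : Fin n → (Fin m → ℝ) → ℝ) (x : Fin n → ℝ) :
    Fin n → ℝ := by
  classical
  exact fun j => if j ∈ range e then x j else min (x j) (v j (pr e x))

theorem clampB_apply {e : Fin m → Fin n} {v : Fin n → (Fin m → ℝ) → ℝ} {x : Fin n → ℝ}
    {j : Fin n} (hj : j ∈ range e) : clampB e v x j = x j := by
  unfold clampB
  exact if_pos hj

theorem clampB_apply' {e : Fin m → Fin n} {v : Fin n → (Fin m → ℝ) → ℝ} {x : Fin n → ℝ}
    {j : Fin n} (hj : j ∉ range e) : clampB e v x j = min (x j) (v j (pr e x)) := by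
  unfold clampB
  exact if_neg hj

theorem clampB_lipschitz {e : Fin m → Fin n}
    {v : Fin n → (Fin m → ℝ) → ℝ} (hv : ∀ j, ∀ y y' : Fin m → ℝ, |v j y - v j y'| ≤ ‖y - y'‖) :
    LipschitzWith 1 (clampB e v) := by
  apply LipschitzWith.of_dist_le_mul
  intro x x'
  rw [NNReal.coe_one, one_mul, dist_pi_le_iff dist_nonneg]
  intro j
  have h0 : |x j - x' j| ≤ dist x x' := by
    have := dist_le_pi_dist x x' j
    rwa [Real.dist_eq] at this
  by_cases hj : j ∈ range e
  · rw [clampB_apply hj, clampB_apply hj, Real.dist_eq]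
    exact h0
  · rw [clampB_apply' hj, clampB_apply' hj, Real.dist_eq]
    refine (abs_min_sub_min_le_max _ _ _ _).trans (max_le h0 ?_)
    refine (hv j _ _).trans ((pr_lip e x x').trans ?_)
    rw [dist_eq_norm]

/-- The key measure estimate: the projection is measure preserving on `S`. -/
theorem Setup.star (H : Setup e S x₀ r h lam ell) {A : Set (Fin m → ℝ)} (hA : MeasurableSet A)
    (hAr : A ⊆ closedBall (pr e x₀) (3 * r / 4)) :
    μH[m] (closedBall x₀ r ∩ S ∩ pr e ⁻¹' A) ≤ volume A := by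
  set K := closedBall x₀ r ∩ S with hKdef
  set b := bar ell (pr e x₀) r h with hb
  have hr := H.r_pos
  have hh := H.h_pos
  have hhr := H.h_le
  have hbl : ∀ j, ∀ y y' : Fin m → ℝ, |b j y - b j y'| ≤ ‖y - y'‖ := H.bar_lip
  have hf := clampB_lipschitz (e := e) hbl
  have hw : ∀ x ∈ K, ‖pr e x - pr e x₀‖ ≤ r := by
    intro x hx
    refine (pr_lip e x x₀).trans ?_
    rw [← dist_eq_norm]
    exact mem_closedBall.1 hx.1
  have hbge : ∀ j y, ell j y - 2 * h ≤ b j y := by
    intro j y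
    have h1 : 0 ≤ 16 * h / r * max (‖y - pr e x₀‖ - 3 * r / 4) 0 := by positivity
    show ell j y - 2 * h ≤ ell j y - 2 * h + _
    linarith
  -- the map is the identity near the lateral boundary
  have hid : ∀ x ∈ K, 15 * r / 16 < ‖pr e x - pr e x₀‖ → clampB e b x = x := by
    intro x hx hlt
    ext j
    by_cases hj : j ∈ range e
    · exact clampB_apply hj
    · rw [clampB_apply' hj]
      apply min_eq_left
      have h1 := abs_le.1 (H.close x hx j hj)
      have h2 : 3 * h ≤ 16 * h / r * max (‖pr e x - pr e x₀‖ - 3 * r / 4) 0 := by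
        have h3 : 3 * r / 16 ≤ max (‖pr e x - pr e x₀‖ - 3 * r / 4) 0 :=
          le_trans (by linarith) (le_max_left _ _)
        calc 3 * h = 16 * h / r * (3 * r / 16) := by
              field_simp
          _ ≤ _ := by gcongr
      show x j ≤ ell j (pr e x) - 2 * h + _
      linarith
  have hmove : ∀ x ∈ K, clampB e b x ≠ x → ‖pr e x - pr e x₀‖ ≤ 15 * r / 16 := by
    intro x hx hne
    by_contra hcon
    exact hne (hid x hx (not_le.1 hcon))
  have hmaps : MapsTo (clampB e b) K (closedBall x₀ r) := by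
    intro x hx
    rw [mem_cube_iff hr.le]
    intro j
    by_cases hj : j ∈ range e
    · rw [clampB_apply hj]
      exact (mem_cube_iff hr.le).1 hx.1 j
    · rw [clampB_apply' hj]
      have h1 := abs_le.1 (H.height hx hj)
      have h2 := abs_le.1 (H.close x hx j hj)
      have h3 := hbge j (pr e x)
      rw [abs_le]
      constructor
      · have : x₀ j - r ≤ min (x j) (b j (pr e x)) := le_min (by linarith) (by linarith)
        linarith
      · have := min_le_left (x j) (b j (pr e x))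
        linarith
  have hmin := H.min' (hf.lipschitzOnWith (s := K)) hmaps hmove
  -- decomposition
  have hmeas : MeasurableSet (pr e ⁻¹' A) := (pr_lipschitz e).continuous.measurable hA
  set P := K ∩ pr e ⁻¹' A with hP
  set N := K \ pr e ⁻¹' A with hN
  have hsplit : μH[m] P + μH[m] N = μH[m] K := measure_inter_add_sdiff K hmeas
  have himg : clampB e b '' K ⊆ gr e b '' A ∪ clampB e b '' N := by
    rintro _ ⟨x, hx, rfl⟩
    by_cases hxA : pr e x ∈ A
    · left
      refine ⟨pr e x, hxA, ?_⟩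
      ext j
      by_cases hj : j ∈ range e
      · obtain ⟨i, rfl⟩ := hj
        rw [gr_apply H.inj, clampB_apply ⟨i, rfl⟩]
        rfl
      · rw [gr_apply' b _ hj, clampB_apply' hj]
        symm
        apply min_eq_right
        have h1 := abs_le.1 (H.close x hx j hj)
        have h2 : max (‖pr e x - pr e x₀‖ - 3 * r / 4) 0 = 0 := by
          apply max_eq_right
          have := mem_closedBall.1 (hAr hxA)
          rw [dist_eq_norm] at this
          linarith
        show ell j (pr e x) - 2 * h + 16 * h / r * max (‖pr e x - pr e x₀‖ - 3 * r / 4) 0 ≤ x j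
        rw [h2]
        linarith
    · right
      exact ⟨x, ⟨hx, hxA⟩, rfl⟩
  have h1 : μH[m] (clampB e b '' K) ≤ volume A + μH[m] N := by
    refine (measure_mono himg).trans ((measure_union_le _ _).trans ?_)
    refine add_le_add (measure_image_gr_le H.inj hbl A) ?_
    have := hf.hausdorffMeasure_image_le (d := (m : ℝ)) (Nat.cast_nonneg m) N
    rwa [ENNReal.coe_one, ENNReal.one_rpow, one_mul] at this
  have hNfin : μH[m] N ≠ ∞ := ((measure_mono sdiff_subset).trans_lt H.fin).ne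
  have h2 : μH[m] P + μH[m] N ≤ volume A + μH[m] N := by
    rw [hsplit]
    exact hmin.trans h1
  exact (ENNReal.add_le_add_iff_right hNfin).1 h2


/-- The no-hole lemma: a Lipschitz curve over the `j₀`-axis, with values in a small horizontal
cube, meets `S`. -/
theorem Setup.hole (H : Setup e S x₀ r h lam ell)
    (hdens : ENNReal.ofReal (((1 + 4 * h / r) ^ m - 1) * (3 * r / 2) ^ m) <
      μH[m] (closedBall x₀ r ∩ S ∩ pr e ⁻¹' closedBall (pr e x₀) (r / 2)))
    {c : ℝ → Fin m → ℝ} {Lc : ℝ≥0} (hc : LipschitzWith Lc c)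
    (hcr : ∀ s, ‖c s - pr e x₀‖ ≤ r / 4) {j₀ : Fin n} :
    ∃ x ∈ closedBall x₀ r ∩ S, pr e x = c (x j₀) := by
  by_contra hcon
  push Not at hcon
  have hr := H.r_pos
  have hh := H.h_pos
  have hhr := H.h_le
  set y₀ := pr e x₀ with hy₀
  set K := closedBall x₀ r ∩ S with hKdef
  have hK : IsCompact K := H.isCompact
  -- the functions
  set w : (Fin n → ℝ) → ℝ := fun x => ‖pr e x - y₀‖ with hw
  set d : (Fin n → ℝ) → (Fin m → ℝ) := fun x => c (x j₀) - y₀ with hd
  set mu : (Fin n → ℝ) → ℝ := fun x => max (r / 2 - w x) 0 * (max (r / 2 - ‖d x‖) (r / 4))⁻¹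
    with hmu
  set psi : (Fin n → ℝ) → (Fin m → ℝ) := fun x => (pr e x - y₀) - mu x • d x with hpsi
  have hdle : ∀ x, ‖d x‖ ≤ r / 4 := fun x => hcr (x j₀)
  have hmax : ∀ x, max (r / 2 - ‖d x‖) (r / 4) = r / 2 - ‖d x‖ := by
    intro x
    apply max_eq_left
    have := hdle x
    linarith
  have hmupos : ∀ x, 0 ≤ mu x := by
    intro x
    show 0 ≤ max (r / 2 - w x) 0 * (max (r / 2 - ‖d x‖) (r / 4))⁻¹
    rw [hmax]
    have := hdle x
    have h1 : 0 ≤ max (r / 2 - w x) 0 := le_max_right _ _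
    have h2 : 0 < r / 2 - ‖d x‖ := by linarith
    positivity
  have hmu_in : ∀ x, w x ≤ r / 2 → mu x * (r / 2 - ‖d x‖) = r / 2 - w x := by
    intro x hx
    show max (r / 2 - w x) 0 * (max (r / 2 - ‖d x‖) (r / 4))⁻¹ * (r / 2 - ‖d x‖) = _
    rw [hmax, max_eq_left (by linarith), inv_mul_cancel_right₀]
    have := hdle x
    have h2 : 0 < r / 2 - ‖d x‖ := by linarith
    exact h2.ne'
  have hmu_out : ∀ x, r / 2 ≤ w x → mu x = 0 := by
    intro x hx
    show max (r / 2 - w x) 0 * (max (r / 2 - ‖d x‖) (r / 4))⁻¹ = 0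
    rw [max_eq_right (by linarith), zero_mul]
  have hpsi_out : ∀ x, r / 2 ≤ w x → psi x = pr e x - y₀ := by
    intro x hx
    show (pr e x - y₀) - mu x • d x = _
    rw [hmu_out x hx, zero_smul, sub_zero]
  have hpsi_ne : ∀ x ∈ K, psi x ≠ 0 := by
    intro x hx h0
    rcases le_total (r / 2) (w x) with hle | hle
    · rw [hpsi_out x hle] at h0
      have h1 : w x = 0 := by
        show ‖pr e x - y₀‖ = 0
        rw [h0, norm_zero]
      linarith
    · have h1 : pr e x - y₀ = mu x • d x := sub_eq_zero.1 h0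
      have h2 : w x = mu x * ‖d x‖ := by
        show ‖pr e x - y₀‖ = _
        rw [h1, norm_smul, Real.norm_of_nonneg (hmupos x)]
      have h3 := hmu_in x hle
      have h4 : mu x = 1 := by
        have h5 : mu x * (r / 2) = r / 2 := by nlinarith
        have h6 : r / 2 ≠ 0 := by positivity
        exact mul_right_cancel₀ h6 (by linarith)
      rw [h4, one_smul] at h1
      exact hcon x hx (sub_left_injective h1)
  have hpsi_in : ∀ x, w x ≤ r / 2 → ‖psi x‖ ≤ r / 2 := by
    intro x hx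
    have h1 := hmu_in x hx
    have h2 := hdle x
    have h3 := hmupos x
    calc ‖psi x‖ ≤ ‖pr e x - y₀‖ + ‖mu x • d x‖ := norm_sub_le _ _
      _ = w x + mu x * ‖d x‖ := by rw [norm_smul, Real.norm_of_nonneg h3]
      _ ≤ w x + mu x * (r / 2 - ‖d x‖) := by
          have : ‖d x‖ ≤ r / 2 - ‖d x‖ := by linarith
          gcongr
      _ = r / 2 := by rw [h1]; ring
  -- local Lipschitz properties
  have ll_pr : LocallyLipschitz (fun x : Fin n → ℝ => pr e x - y₀) :=
    (pr_lipschitz e).locallyLipschitz.sub (LocallyLipschitz.const _)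
  have ll_w : LocallyLipschitz w := lipschitzWith_one_norm.locallyLipschitz.comp ll_pr
  have ll_eval : ∀ j : Fin n, LocallyLipschitz (fun x : Fin n → ℝ => x j) := fun j =>
    (LipschitzWith.eval j).locallyLipschitz
  have ll_d : LocallyLipschitz d :=
    (hc.locallyLipschitz.comp (ll_eval j₀)).sub (LocallyLipschitz.const _)
  have ll_nd : LocallyLipschitz (fun x => ‖d x‖) := lipschitzWith_one_norm.locallyLipschitz.comp ll_d
  have ll_mu : LocallyLipschitz mu :=
    ll_mul (((LocallyLipschitz.const (r / 2)).sub ll_w).max_const 0)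
      (ll_inv_max ((LocallyLipschitz.const (r / 2)).sub ll_nd) (by positivity))
  have ll_psi : LocallyLipschitz psi := ll_pr.sub (ll_smul ll_mu ll_d)
  have ll_npsi : LocallyLipschitz (fun x => ‖psi x‖) :=
    lipschitzWith_one_norm.locallyLipschitz.comp ll_psi
  -- the lower bound for `psi`
  obtain ⟨η, hη, hηK⟩ : ∃ η : ℝ, 0 < η ∧ ∀ x ∈ K, η ≤ ‖psi x‖ := by
    obtain ⟨x₁, hx₁, hx₁'⟩ := hK.exists_isMinOn ⟨x₀, H.x₀_mem⟩ ll_npsi.continuous.continuousOn
    exact ⟨‖psi x₁‖, norm_pos_iff.2 (hpsi_ne x₁ hx₁), fun x hx => hx₁' hx⟩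
  set R : (Fin n → ℝ) → (Fin m → ℝ) := fun x =>
    y₀ + (max (‖psi x‖) (r / 2) * (max ‖psi x‖ η)⁻¹) • psi x with hR
  have ll_R : LocallyLipschitz R :=
    (LocallyLipschitz.const _).add (ll_smul (ll_mul (ll_npsi.max_const _)
      (ll_inv_max ll_npsi hη)) ll_psi)
  set th : (Fin n → ℝ) → ℝ := fun x => max (min ((3 * r / 4 - w x) * (4 / r)) 1) 0 with hth
  have ll_th : LocallyLipschitz th :=
    ((ll_mul ((LocallyLipschitz.const (3 * r / 4)).sub ll_w)
      (LocallyLipschitz.const _)).min_const 1).max_const 0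
  set F : (Fin n → ℝ) → (Fin n → ℝ) := fun x =>
    Function.extend e (R x) (fun j => x j + th x * (ell j (R x) - x j)) with hF
  have hF1 : ∀ x i, F x (e i) = R x i := fun x i => H.inj.extend_apply _ _ _
  have hF2 : ∀ x, ∀ j ∉ range e, F x j = x j + th x * (ell j (R x) - x j) := fun x j hj =>
    Function.extend_apply' _ _ _ hj
  have ll_ell : ∀ j, LocallyLipschitz (ell j) := by
    intro j
    have : LipschitzWith (NNReal.mk lam H.lam_nonneg) (ell j) := by
      apply LipschitzWith.of_dist_le_mul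
      intro y y'
      rw [Real.dist_eq, dist_eq_norm]
      exact H.ell_lip j y y'
    exact this.locallyLipschitz
  obtain ⟨L, hL⟩ : ∃ L, LipschitzOnWith L F K := by
    apply exists_lip_of_components hK
    intro j
    by_cases hj : j ∈ range e
    · obtain ⟨i, rfl⟩ := hj
      have : (fun x => F x (e i)) = fun x => R x i := by
        ext x
        exact hF1 x i
      rw [this]
      exact (LipschitzWith.eval i).locallyLipschitz.comp ll_R
    · have : (fun x => F x j) = fun x => x j + th x * (ell j (R x) - x j) := by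
        ext x
        exact hF2 x j hj
      rw [this]
      exact (ll_eval j).add (ll_mul ll_th (((ll_ell j).comp ll_R).sub (ll_eval j)))
  -- values of `R` and `th`
  have hR_out : ∀ x ∈ K, r / 2 ≤ w x → R x = pr e x := by
    intro x hx hle
    have h1 := hpsi_out x hle
    have h2 : ‖psi x‖ = w x := by rw [h1]
    show y₀ + (max (‖psi x‖) (r / 2) * (max ‖psi x‖ η)⁻¹) • psi x = pr e x
    rw [max_eq_left (by rw [h2]; exact hle), max_eq_left (hηK x hx), mul_inv_cancel₀, one_smul, h1]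
    · abel
    · exact norm_ne_zero_iff.2 (hpsi_ne x hx)
  have hR_in : ∀ x ∈ K, w x ≤ r / 2 → ‖R x - y₀‖ = r / 2 := by
    intro x hx hle
    have h1 : R x - y₀ = (max (‖psi x‖) (r / 2) * (max ‖psi x‖ η)⁻¹) • psi x := by
      show y₀ + (max (‖psi x‖) (r / 2) * (max ‖psi x‖ η)⁻¹) • psi x - y₀ = _
      abel
    rw [h1, max_eq_right (hpsi_in x hle), max_eq_left (hηK x hx), norm_smul, norm_mul, norm_inv,
      norm_norm, inv_mul_cancel_right₀ (norm_ne_zero_iff.2 (hpsi_ne x hx)),
      Real.norm_of_nonneg (by positivity)]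
  have hwr : ∀ x ∈ K, w x ≤ r := by
    intro x hx
    refine (pr_lip e x x₀).trans ?_
    rw [← dist_eq_norm]
    exact mem_closedBall.1 hx.1
  have hRr : ∀ x ∈ K, ‖R x - y₀‖ ≤ r := by
    intro x hx
    rcases le_total (r / 2) (w x) with hle | hle
    · rw [hR_out x hx hle]
      exact hwr x hx
    · rw [hR_in x hx hle]
      linarith
  have hth0 : ∀ x, 0 ≤ th x := fun x => le_max_right _ _
  have hth1 : ∀ x, th x ≤ 1 := fun x => max_le (min_le_right _ _) zero_le_one
  have hth_in : ∀ x, w x ≤ r / 2 → th x = 1 := by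
    intro x hx
    show max (min ((3 * r / 4 - w x) * (4 / r)) 1) 0 = 1
    have h1 : 1 ≤ (3 * r / 4 - w x) * (4 / r) := by
      rw [← mul_div_assoc, le_div_iff₀ hr]
      linarith
    rw [min_eq_right h1, max_eq_left zero_le_one]
  have hth_out : ∀ x, 3 * r / 4 ≤ w x → th x = 0 := by
    intro x hx
    show max (min ((3 * r / 4 - w x) * (4 / r)) 1) 0 = 0
    apply max_eq_right
    refine (min_le_left _ _).trans ?_
    apply mul_nonpos_of_nonpos_of_nonneg (by linarith) (by positivity)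
  have hF_out : ∀ x ∈ K, 3 * r / 4 ≤ w x → F x = x := by
    intro x hx hle
    ext j
    by_cases hj : j ∈ range e
    · obtain ⟨i, rfl⟩ := hj
      rw [hF1, hR_out x hx (by linarith)]
      rfl
    · rw [hF2 x j hj, hth_out x hle, zero_mul, add_zero]
  have hmove : ∀ x ∈ K, F x ≠ x → ‖pr e x - y₀‖ ≤ 15 * r / 16 := by
    intro x hx hne
    by_contra hlt
    push Not at hlt
    exact hne (hF_out x hx (by show 3 * r / 4 ≤ ‖pr e x - y₀‖; linarith))
  have hmaps : MapsTo F K (closedBall x₀ r) := by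
    intro x hx
    rw [mem_cube_iff hr.le]
    intro j
    by_cases hj : j ∈ range e
    · obtain ⟨i, rfl⟩ := hj
      rw [hF1]
      have := (norm_le_pi_norm (R x - y₀) i).trans (hRr x hx)
      exact this
    · rw [hF2 x j hj]
      have h1 := H.height hx hj
      have h2 : |ell j (R x) - x₀ j| ≤ r := by
        have h3 := H.close x₀ H.x₀_mem j hj
        have h4 := H.ell_lip j (R x) y₀
        have h5 : lam * ‖R x - y₀‖ ≤ lam * r := by
          have := H.lam_nonneg
          have := hRr x hx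
          gcongr
        have h6 := H.hlam
        have h7 : ell j (R x) - x₀ j = (ell j (R x) - ell j y₀) - (x₀ j - ell j y₀) := by ring
        rw [← hy₀] at h3
        rw [h7]
        refine (abs_sub _ _).trans ?_
        nlinarith
      have h3 : x j + th x * (ell j (R x) - x j) - x₀ j =
        (1 - th x) * (x j - x₀ j) + th x * (ell j (R x) - x₀ j) := by ring
      rw [h3]
      have h4 := hth0 x
      have h5 := hth1 x
      calc |(1 - th x) * (x j - x₀ j) + th x * (ell j (R x) - x₀ j)|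
          ≤ (1 - th x) * |x j - x₀ j| + th x * |ell j (R x) - x₀ j| := by
            refine (abs_add_le _ _).trans ?_
            rw [abs_mul, abs_mul, abs_of_nonneg h4, abs_of_nonneg (by linarith : 0 ≤ 1 - th x)]
        _ ≤ (1 - th x) * r + th x * r := by
            have : |x j - x₀ j| ≤ r := by linarith
            have : 0 ≤ 1 - th x := by linarith
            gcongr
        _ = r := by ring
  have hmin := H.min' hL hmaps hmove
  -- the three parts of `K`
  have hell1 : ∀ j, ∀ y y' : Fin m → ℝ, |ell j y - ell j y'| ≤ ‖y - y'‖ := by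
    intro j y y'
    refine (H.ell_lip j y y').trans ?_
    have := H.lam_le
    have h0 := norm_nonneg (y - y')
    nlinarith
  have hm1 : MeasurableSet (pr e ⁻¹' closedBall y₀ (r / 2)) :=
    (pr_lipschitz e).continuous.measurable measurableSet_closedBall
  have hm2 : MeasurableSet (pr e ⁻¹' closedBall y₀ (3 * r / 4)) :=
    (pr_lipschitz e).continuous.measurable measurableSet_closedBall
  set P1 := K ∩ pr e ⁻¹' closedBall y₀ (r / 2) with hP1
  set N := K \ pr e ⁻¹' closedBall y₀ (r / 2) with hN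
  set N1 := N ∩ pr e ⁻¹' closedBall y₀ (3 * r / 4) with hN1
  set N2 := N \ pr e ⁻¹' closedBall y₀ (3 * r / 4) with hN2
  have hsplit : μH[m] P1 + μH[m] N = μH[m] K := measure_inter_add_sdiff K hm1
  have hsplit2 : μH[m] N1 + μH[m] N2 = μH[m] N := measure_inter_add_sdiff N hm2
  have hwmem : ∀ x (ρ : ℝ), pr e x ∈ closedBall y₀ ρ ↔ w x ≤ ρ := by
    intro x ρ
    rw [mem_closedBall, dist_eq_norm]
  have himg : F '' K ⊆ gr e ell '' (sphere y₀ (r / 2)) ∪ F '' N1 ∪ N2 := by
    rintro _ ⟨x, hx, rfl⟩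
    by_cases h1 : w x ≤ r / 2
    · left; left
      refine ⟨R x, ?_, ?_⟩
      · rw [mem_sphere, dist_eq_norm]
        exact hR_in x hx h1
      · ext j
        by_cases hj : j ∈ range e
        · obtain ⟨i, rfl⟩ := hj
          rw [gr_apply H.inj, hF1]
        · rw [gr_apply' _ _ hj, hF2 x j hj, hth_in x h1, one_mul, add_sub_cancel]
    · have hxN : x ∈ N := ⟨hx, fun h2 => h1 ((hwmem x _).1 h2)⟩
      by_cases h2 : w x ≤ 3 * r / 4
      · left; right
        exact ⟨x, ⟨hxN, (hwmem x _).2 h2⟩, rfl⟩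
      · right
        rw [hF_out x hx (not_le.1 h2).le]
        exact ⟨hxN, fun h3 => h2 ((hwmem x _).1 h3)⟩
  set Lam : ℝ≥0 := NNReal.mk (1 + 4 * h / r) (by positivity) with hLam
  have hFN1 : LipschitzOnWith Lam F N1 := by
    apply LipschitzOnWith.of_dist_le_mul
    intro x hx x' hx'
    have hxK : x ∈ K := hx.1.1
    have hxK' : x' ∈ K := hx'.1.1
    have hxw : r / 2 ≤ w x := by
      by_contra hcon'
      exact hx.1.2 ((hwmem x _).2 (not_le.1 hcon').le)
    have hxw' : r / 2 ≤ w x' := by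
      by_contra hcon'
      exact hx'.1.2 ((hwmem x' _).2 (not_le.1 hcon').le)
    have hLam' : (Lam : ℝ) = 1 + 4 * h / r := rfl
    have hD := dist_nonneg (x := x) (y := x')
    have h4hr : 0 ≤ 4 * h / r := by positivity
    rw [hLam', dist_pi_le_iff (by positivity)]
    intro j
    have hcoord : |x j - x' j| ≤ dist x x' := by
      have := dist_le_pi_dist x x' j
      rwa [Real.dist_eq] at this
    by_cases hj : j ∈ range e
    · obtain ⟨i, rfl⟩ := hj
      rw [hF1, hF1, hR_out x hxK hxw, hR_out x' hxK' hxw', Real.dist_eq]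
      show |x (e i) - x' (e i)| ≤ _
      nlinarith
    · rw [hF2 x j hj, hF2 x' j hj, hR_out x hxK hxw, hR_out x' hxK' hxw', Real.dist_eq]
      have h1 : x j + th x * (ell j (pr e x) - x j) - (x' j + th x' * (ell j (pr e x') - x' j)) =
          (1 - th x) * (x j - x' j) + th x * (ell j (pr e x) - ell j (pr e x')) +
          (th x' - th x) * (x' j - ell j (pr e x')) := by ring
      have h2 : |ell j (pr e x) - ell j (pr e x')| ≤ dist x x' := by
        refine (hell1 j _ _).trans ((pr_lip e x x').trans ?_)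
        rw [dist_eq_norm]
      have h3 : |x' j - ell j (pr e x')| ≤ h := H.close x' hxK' j hj
      have h4 : |th x' - th x| ≤ 4 / r * dist x x' := by
        show |max (min ((3 * r / 4 - w x') * (4 / r)) 1) 0 -
          max (min ((3 * r / 4 - w x) * (4 / r)) 1) 0| ≤ _
        refine (abs_max_sub_max_le_abs _ _ 0).trans ?_
        refine (abs_min_sub_min_le_max _ _ _ _).trans ?_
        rw [sub_self, abs_zero, max_eq_left (abs_nonneg _)]
        have h5 : (3 * r / 4 - w x') * (4 / r) - (3 * r / 4 - w x) * (4 / r) =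
          4 / r * (w x - w x') := by ring
        rw [h5, abs_mul, abs_of_nonneg (by positivity : 0 ≤ 4 / r)]
        have h6 : |w x - w x'| ≤ dist x x' := by
          refine (abs_norm_sub_norm_le _ _).trans ?_
          rw [sub_sub_sub_cancel_right]
          refine (pr_lip e x x').trans ?_
          rw [dist_eq_norm]
        gcongr
      have h7 := hth0 x
      have h8 : 0 ≤ 1 - th x := by linarith [hth1 x]
      rw [h1]
      calc |(1 - th x) * (x j - x' j) + th x * (ell j (pr e x) - ell j (pr e x')) +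
            (th x' - th x) * (x' j - ell j (pr e x'))|
          ≤ (1 - th x) * |x j - x' j| + th x * |ell j (pr e x) - ell j (pr e x')| +
            |th x' - th x| * |x' j - ell j (pr e x')| := by
            refine (abs_add_le _ _).trans ?_
            rw [abs_mul (th x' - th x)]
            gcongr
            refine (abs_add_le _ _).trans ?_
            rw [abs_mul, abs_mul, abs_of_nonneg h7, abs_of_nonneg h8]
        _ ≤ (1 - th x) * dist x x' + th x * dist x x' + 4 / r * dist x x' * h := by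
            gcongr
        _ = (1 + 4 * h / r) * dist x x' := by ring
  have hb1 : μH[m] (gr e ell '' (sphere y₀ (r / 2))) = 0 := by
    have h1 := measure_image_gr_le H.inj hell1 (sphere y₀ (r / 2))
    rw [addHaar_sphere_of_ne_zero _ _ (by positivity : r / 2 ≠ 0)] at h1
    exact le_antisymm h1 zero_le
  have hb2 : μH[m] (F '' N1) ≤ (Lam : ℝ≥0∞) ^ (m : ℝ) * μH[m] N1 :=
    hFN1.hausdorffMeasure_image_le (Nat.cast_nonneg m)
  have hb3 : μH[m] (F '' K) ≤ (Lam : ℝ≥0∞) ^ (m : ℝ) * μH[m] N1 + μH[m] N2 := by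
    refine (measure_mono himg).trans ((measure_union_le _ _).trans ?_)
    refine add_le_add ?_ le_rfl
    refine (measure_union_le _ _).trans ?_
    rw [hb1, zero_add]
    exact hb2
  have hfinK : μH[m] K ≠ ∞ := H.fin.ne
  have hN1K : N1 ⊆ K := fun x hx => hx.1.1
  have hN2K : N2 ⊆ K := fun x hx => hx.1.1
  have hfinN2 : μH[m] N2 ≠ ∞ := ((measure_mono hN2K).trans_lt H.fin).ne
  have hfinN1 : μH[m] N1 ≠ ∞ := ((measure_mono hN1K).trans_lt H.fin).ne
  have hfinP1 : μH[m] P1 ≠ ∞ := ((measure_mono inter_subset_left).trans_lt H.fin).ne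
  have hkey : μH[m] P1 + μH[m] N1 ≤ (Lam : ℝ≥0∞) ^ (m : ℝ) * μH[m] N1 := by
    have h1 : (μH[m] P1 + μH[m] N1) + μH[m] N2 ≤
        (Lam : ℝ≥0∞) ^ (m : ℝ) * μH[m] N1 + μH[m] N2 := by
      rw [add_assoc, hsplit2, hsplit]
      exact hmin.trans hb3
    exact (ENNReal.add_le_add_iff_right hfinN2).1 h1
  have hvol : μH[m] N1 ≤ ENNReal.ofReal ((3 * r / 2) ^ m) := by
    have h1 : N1 ⊆ K ∩ pr e ⁻¹' closedBall y₀ (3 * r / 4) := fun x hx => ⟨hx.1.1, hx.2⟩
    refine (measure_mono h1).trans ?_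
    refine (H.star measurableSet_closedBall (le_refl _)).trans ?_
    rw [Real.volume_pi_closedBall _ (by positivity), Fintype.card_fin]
    apply le_of_eq
    congr 2
    ring
  -- conclude with real numbers
  have hP1real : μH[m] P1 ≤ ENNReal.ofReal (((1 + 4 * h / r) ^ m - 1) * (3 * r / 2) ^ m) := by
    have hpow : (1 : ℝ) ≤ (1 + 4 * h / r) ^ m := by
      apply one_le_pow₀
      have : 0 ≤ 4 * h / r := by positivity
      linarith
    set a := (μH[m] P1).toReal with ha
    set b := (μH[m] N1).toReal with hb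
    have ha' : μH[m] P1 = ENNReal.ofReal a := (ENNReal.ofReal_toReal hfinP1).symm
    have hb' : μH[m] N1 = ENNReal.ofReal b := (ENNReal.ofReal_toReal hfinN1).symm
    have ha0 : 0 ≤ a := ENNReal.toReal_nonneg
    have hb0 : 0 ≤ b := ENNReal.toReal_nonneg
    have hLp : (Lam : ℝ≥0∞) ^ (m : ℝ) = ENNReal.ofReal ((1 + 4 * h / r) ^ m) := by
      rw [ENNReal.rpow_natCast, ENNReal.ofReal_pow (by positivity)]
      congr 1
      rw [ENNReal.ofReal]
      congr 1
      rw [Real.toNNReal_of_nonneg (by positivity)]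
    rw [ha', hb', hLp, ← ENNReal.ofReal_add ha0 hb0, ← ENNReal.ofReal_mul (by positivity),
      ENNReal.ofReal_le_ofReal_iff (by positivity)] at hkey
    rw [hb', ENNReal.ofReal_le_ofReal_iff (by positivity)] at hvol
    rw [ha']
    apply ENNReal.ofReal_le_ofReal
    calc a ≤ ((1 + 4 * h / r) ^ m - 1) * b := by linarith
      _ ≤ ((1 + 4 * h / r) ^ m - 1) * (3 * r / 2) ^ m := by
        have : 0 ≤ (1 + 4 * h / r) ^ m - 1 := by linarith
        gcongr
  exact absurd hdens (not_lt.2 hP1real)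


/-- The hitting lemma. -/
theorem Setup.hit (H : Setup e S x₀ r h lam ell)
    (hdens : ENNReal.ofReal (((1 + 4 * h / r) ^ m - 1) * (3 * r / 2) ^ m) <
      μH[m] (closedBall x₀ r ∩ S ∩ pr e ⁻¹' closedBall (pr e x₀) (r / 2)))
    {p q : Fin m → ℝ} (hp : p ∈ closedBall (pr e x₀) (r / 4))
    (hq : q ∈ closedBall (pr e x₀) (r / 4)) {j₀ : Fin n} {τ : ℝ}
    (hpS : ∀ x ∈ closedBall x₀ r ∩ S, pr e x = p → x j₀ < τ)
    (hqS : ∀ x ∈ closedBall x₀ r ∩ S, pr e x = q → τ < x j₀) :
    ∃ x ∈ closedBall x₀ r ∩ S, x j₀ = τ ∧ pr e x ∈ segment ℝ p q := by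
  by_contra hcon
  push Not at hcon
  have hcompact : IsCompact (closedBall x₀ r ∩ S ∩ pr e ⁻¹' segment ℝ p q) := by
    apply H.isCompact.inter_right
    apply IsClosed.preimage (pr_lipschitz e).continuous
    rw [← convexHull_pair]
    exact (Set.Finite.isCompact_convexHull ℝ (by simp)).isClosed
  obtain ⟨η, hη, hηT⟩ : ∃ η : ℝ, 0 < η ∧
      ∀ x ∈ closedBall x₀ r ∩ S ∩ pr e ⁻¹' segment ℝ p q, η ≤ |x j₀ - τ| := by
    rcases (closedBall x₀ r ∩ S ∩ pr e ⁻¹' segment ℝ p q).eq_empty_or_nonempty with hT | hT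
    · refine ⟨1, one_pos, ?_⟩
      intro x hx
      rw [hT] at hx
      exact absurd hx (notMem_empty x)
    · have hcont : Continuous (fun x : Fin n → ℝ => |x j₀ - τ|) := by fun_prop
      obtain ⟨x₁, hx₁, hx₁'⟩ := hcompact.exists_isMinOn hT hcont.continuousOn
      refine ⟨|x₁ j₀ - τ|, ?_, fun x hx => hx₁' hx⟩
      rw [abs_pos, sub_ne_zero]
      intro h1
      exact hcon x₁ hx₁.1 h1 hx₁.2
  let g : ℝ → ℝ := fun s => max (min ((τ + η - s) * (2 * η)⁻¹) 1) 0
  have hg0 : ∀ s, 0 ≤ g s := fun s => le_max_right _ _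
  have hg1 : ∀ s, g s ≤ 1 := fun s => max_le (min_le_right _ _) zero_le_one
  let c : ℝ → Fin m → ℝ := fun s => p + g s • (q - p)
  have hcseg : ∀ s, c s ∈ segment ℝ p q := by
    intro s
    rw [segment_eq_image']
    exact ⟨g s, ⟨hg0 s, hg1 s⟩, rfl⟩
  have hcball : ∀ s, c s ∈ closedBall (pr e x₀) (r / 4) := fun s =>
    (convex_closedBall _ _).segment_subset hp hq (hcseg s)
  have hclip : LipschitzWith (NNReal.mk ((2 * η)⁻¹ * ‖q - p‖) (by positivity)) c := by
    apply LipschitzWith.of_dist_le_mul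
    intro s t
    have h1 : |g s - g t| ≤ (2 * η)⁻¹ * |s - t| := by
      refine (abs_max_sub_max_le_abs _ _ 0).trans ?_
      refine (abs_min_sub_min_le_max _ _ _ _).trans ?_
      rw [sub_self, abs_zero, max_eq_left (abs_nonneg _)]
      have h2 : (τ + η - s) * (2 * η)⁻¹ - (τ + η - t) * (2 * η)⁻¹ = (2 * η)⁻¹ * (t - s) := by ring
      rw [h2, abs_mul, abs_of_nonneg (by positivity : 0 ≤ (2 * η)⁻¹), abs_sub_comm]
    have h3 : c s - c t = (g s - g t) • (q - p) := by
      show p + g s • (q - p) - (p + g t • (q - p)) = _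
      rw [sub_smul]
      abel
    rw [dist_eq_norm, h3, norm_smul, Real.norm_eq_abs, Real.dist_eq]
    show |g s - g t| * ‖q - p‖ ≤ (2 * η)⁻¹ * ‖q - p‖ * |s - t|
    calc |g s - g t| * ‖q - p‖ ≤ (2 * η)⁻¹ * |s - t| * ‖q - p‖ := by gcongr
      _ = (2 * η)⁻¹ * ‖q - p‖ * |s - t| := by ring
  obtain ⟨x, hx, hxc⟩ := H.hole hdens hclip (fun s => by
    rw [← dist_eq_norm]
    exact mem_closedBall.1 (hcball s)) (j₀ := j₀)
  have hxT := hηT x ⟨hx, by
    show pr e x ∈ segment ℝ p q
    rw [hxc]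
    exact hcseg _⟩
  rcases le_total τ (x j₀) with hle | hle
  · rw [abs_of_nonneg (by linarith)] at hxT
    have hg : g (x j₀) = 0 := by
      show max (min ((τ + η - x j₀) * (2 * η)⁻¹) 1) 0 = 0
      apply max_eq_right
      refine (min_le_left _ _).trans ?_
      exact mul_nonpos_of_nonpos_of_nonneg (by linarith) (by positivity)
    have hcp : c (x j₀) = p := by
      show p + g (x j₀) • (q - p) = p
      rw [hg, zero_smul, add_zero]
    have := hpS x hx (hxc.trans hcp)
    linarith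
  · rw [abs_of_nonpos (by linarith)] at hxT
    have hg : g (x j₀) = 1 := by
      show max (min ((τ + η - x j₀) * (2 * η)⁻¹) 1) 0 = 1
      have h1 : 1 ≤ (τ + η - x j₀) * (2 * η)⁻¹ := by
        rw [← div_eq_mul_inv, le_div_iff₀ (by positivity)]
        linarith
      rw [min_eq_right h1, max_eq_left zero_le_one]
    have hcq : c (x j₀) = q := by
      show p + g (x j₀) • (q - p) = q
      rw [hg, one_smul, add_sub_cancel]
    have := hqS x hx (hxc.trans hcq)
    linarith

/-- Every point of a small horizontal cube is covered. -/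
theorem Setup.surj (H : Setup e S x₀ r h lam ell)
    (hdens : ENNReal.ofReal (((1 + 4 * h / r) ^ m - 1) * (3 * r / 2) ^ m) <
      μH[m] (closedBall x₀ r ∩ S ∩ pr e ⁻¹' closedBall (pr e x₀) (r / 2)))
    {y : Fin m → ℝ} (hy : y ∈ closedBall (pr e x₀) (r / 4)) (j₀ : Fin n) :
    ∃ x ∈ closedBall x₀ r ∩ S, pr e x = y := by
  obtain ⟨x, hx, hxc⟩ := H.hole hdens (LipschitzWith.const y) (fun _ => by
    rw [← dist_eq_norm]
    exact mem_closedBall.1 hy) (j₀ := j₀)
  exact ⟨x, hx, hxc⟩


/-- Projection of the part of `S` below height `α`. -/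
def lowS (e : Fin m → Fin n) (K : Set (Fin n → ℝ)) (j₀ : Fin n) (α : ℝ) : Set (Fin m → ℝ) :=
  pr e '' (K ∩ {x | x j₀ ≤ α})

/-- Projection of the part of `S` above height `β`. -/
def highS (e : Fin m → Fin n) (K : Set (Fin n → ℝ)) (j₀ : Fin n) (β : ℝ) : Set (Fin m → ℝ) :=
  pr e '' (K ∩ {x | β ≤ x j₀})

theorem isCompact_lowS {K : Set (Fin n → ℝ)} (hK : IsCompact K) (j₀ : Fin n) (α : ℝ) :
    IsCompact (lowS e K j₀ α) :=
  (hK.inter_right (isClosed_le (continuous_apply j₀) continuous_const)).image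
    (pr_lipschitz e).continuous

theorem isCompact_highS {K : Set (Fin n → ℝ)} (hK : IsCompact K) (j₀ : Fin n) (β : ℝ) :
    IsCompact (highS e K j₀ β) :=
  (hK.inter_right (isClosed_le continuous_const (continuous_apply j₀))).image
    (pr_lipschitz e).continuous

/-- The projection is almost everywhere injective. -/
theorem Setup.uniq (H : Setup e S x₀ r h lam ell) (j₀ : Fin n) {α β : ℝ} (hαβ : α < β) :
    volume (lowS e (closedBall x₀ r ∩ S) j₀ α ∩ highS e (closedBall x₀ r ∩ S) j₀ β ∩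
      closedBall (pr e x₀) (3 * r / 4)) = 0 := by
  set K := closedBall x₀ r ∩ S with hKdef
  set A := lowS e K j₀ α ∩ highS e K j₀ β ∩ closedBall (pr e x₀) (3 * r / 4) with hA
  have hAm : MeasurableSet A :=
    ((isCompact_lowS H.isCompact j₀ α).measurableSet.inter
      (isCompact_highS H.isCompact j₀ β).measurableSet).inter measurableSet_closedBall
  have hstar := H.star hAm inter_subset_right
  have hfin : volume A ≠ ∞ :=
    ((measure_mono inter_subset_right).trans_lt measure_closedBall_lt_top).ne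
  set P1 := K ∩ pr e ⁻¹' A ∩ {x | x j₀ ≤ α} with hP1
  set P2 := (K ∩ pr e ⁻¹' A) \ {x | x j₀ ≤ α} with hP2
  have hsplit : μH[m] P1 + μH[m] P2 = μH[m] (K ∩ pr e ⁻¹' A) :=
    measure_inter_add_sdiff _ (measurableSet_le (measurable_pi_apply j₀) measurable_const)
  have h1 : volume A ≤ μH[m] P1 := by
    refine le_trans (measure_mono ?_) (volume_image_le (pr_lipschitz e) P1)
    intro y hy
    obtain ⟨x, hx, rfl⟩ := hy.1.1
    exact ⟨x, ⟨⟨hx.1, hy⟩, hx.2⟩, rfl⟩
  have h2 : volume A ≤ μH[m] P2 := by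
    refine le_trans (measure_mono ?_) (volume_image_le (pr_lipschitz e) P2)
    intro y hy
    obtain ⟨x, hx, rfl⟩ := hy.1.2
    refine ⟨x, ⟨⟨hx.1, hy⟩, ?_⟩, rfl⟩
    intro h3
    have h4 : β ≤ x j₀ := hx.2
    have h5 : x j₀ ≤ α := h3
    linarith
  have h3 : volume A + volume A ≤ 0 + volume A := by
    rw [zero_add]
    exact ((add_le_add h1 h2).trans_eq hsplit).trans hstar
  exact le_antisymm ((ENNReal.add_le_add_iff_right hfin).1 h3) zero_le

end Main

section Directional

variable {k : ℕ} {e : Fin (k + 1) → Fin n} {S : Set (Fin n → ℝ)} {x₀ : Fin n → ℝ} {r h lam : ℝ}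
  {ell : Fin n → (Fin (k + 1) → ℝ) → ℝ}

/-- insert a coordinate -/
def ins (i : Fin (k + 1)) (p : ℝ × (Fin k → ℝ)) : Fin (k + 1) → ℝ :=
  (MeasurableEquiv.piFinSuccAbove (fun _ => ℝ) i).symm p

theorem ins_same (i : Fin (k + 1)) (p : ℝ × (Fin k → ℝ)) : ins i p i = p.1 := by
  simp [ins]

theorem ins_succAbove (i : Fin (k + 1)) (p : ℝ × (Fin k → ℝ)) (l : Fin k) :
    ins i p (i.succAbove l) = p.2 l := by
  simp [ins]

theorem ins_measurePreserving (i : Fin (k + 1)) :
    MeasurePreserving (ins (k := k) i) volume volume :=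
  (volume_preserving_piFinSuccAbove (fun _ => ℝ) i).symm _

theorem volume_box (i : Fin (k + 1)) {I : Set ℝ} (hI : MeasurableSet I) {K' : Set (Fin k → ℝ)}
    (hK' : MeasurableSet K') :
    volume {y : Fin (k + 1) → ℝ | y i ∈ I ∧ (fun l => y (i.succAbove l)) ∈ K'} =
      volume I * volume K' := by
  have h1 : {y : Fin (k + 1) → ℝ | y i ∈ I ∧ (fun l => y (i.succAbove l)) ∈ K'} =
      (MeasurableEquiv.piFinSuccAbove (fun _ => ℝ) i) ⁻¹' (I ×ˢ K') := by
    ext y
    rfl
  rw [h1, (volume_preserving_piFinSuccAbove (fun _ => ℝ) i).measure_preimage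
    (hI.prod hK').nullMeasurableSet, Measure.volume_eq_prod, Measure.prod_prod]

theorem update_lipschitz (e : Fin (k + 1) → Fin n) (i : Fin (k + 1)) (j₀ : Fin n) :
    LipschitzWith 1 (fun x : Fin n → ℝ => Function.update (pr e x) i (x j₀)) := by
  apply LipschitzWith.of_dist_le_mul
  intro x x'
  rw [NNReal.coe_one, one_mul, dist_pi_le_iff dist_nonneg]
  intro l
  by_cases hl : l = i
  · subst hl
    rw [Function.update_self, Function.update_self]
    exact dist_le_pi_dist x x' j₀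
  · rw [Function.update_of_ne hl, Function.update_of_ne hl]
    exact dist_le_pi_dist x x' (e l)

/-- The slice estimate. -/
theorem Setup.slice (H : Setup e S x₀ r h lam ell)
    (hdens : ENNReal.ofReal (((1 + 4 * h / r) ^ (k + 1) - 1) * (3 * r / 2) ^ (k + 1)) <
      μH[(k + 1 : ℕ)] (closedBall x₀ r ∩ S ∩ pr e ⁻¹' closedBall (pr e x₀) (r / 2)))
    (i : Fin (k + 1)) (j₀ : Fin n) {a b α β : ℝ} (hab : |b - a| < β - α) :
    volume {y : Fin k → ℝ | ins i (a, y) ∈ closedBall (pr e x₀) (r / 4) ∧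
      ins i (b, y) ∈ closedBall (pr e x₀) (r / 4) ∧
      ins i (a, y) ∉ highS e (closedBall x₀ r ∩ S) j₀ α ∧
      ins i (b, y) ∉ lowS e (closedBall x₀ r ∩ S) j₀ β} = 0 := by
  set K := closedBall x₀ r ∩ S with hKdef
  set K' := {y : Fin k → ℝ | ins i (a, y) ∈ closedBall (pr e x₀) (r / 4) ∧
      ins i (b, y) ∈ closedBall (pr e x₀) (r / 4) ∧
      ins i (a, y) ∉ highS e K j₀ α ∧ ins i (b, y) ∉ lowS e K j₀ β} with hK'
  have hr := H.r_pos
  have hins : ∀ t : ℝ, Measurable (fun y : Fin k → ℝ => ins i (t, y)) := fun t =>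
    (ins_measurePreserving i).measurable.comp (measurable_const.prodMk measurable_id)
  have hK'm : MeasurableSet K' :=
    (hins a measurableSet_closedBall).inter ((hins b measurableSet_closedBall).inter
      ((hins a (isCompact_highS H.isCompact j₀ α).measurableSet).compl.inter
        (hins b (isCompact_lowS H.isCompact j₀ β).measurableSet).compl))
  have hcoord : ∀ y ∈ K', ∀ l : Fin k, |y l - pr e x₀ (i.succAbove l)| ≤ r / 4 := by
    intro y hy l
    have := (mem_cube_iff (by positivity)).1 hy.1 (i.succAbove l)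
    rwa [ins_succAbove] at this
  have hfin : volume K' ≠ ∞ := by
    have h1 : K' ⊆ closedBall (fun l => pr e x₀ (i.succAbove l)) (r / 4) := by
      intro y hy
      rw [mem_cube_iff (by positivity)]
      exact hcoord y hy
    exact ((measure_mono h1).trans_lt measure_closedBall_lt_top).ne
  by_contra hne
  obtain ⟨ya, hya⟩ : K'.Nonempty := by
    rw [nonempty_iff_ne_empty]
    intro h0
    rw [h0, measure_empty] at hne
    exact hne rfl
  have ha : |a - pr e x₀ i| ≤ r / 4 := by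
    have := (mem_cube_iff (by positivity)).1 hya.1 i
    rwa [ins_same] at this
  have hb : |b - pr e x₀ i| ≤ r / 4 := by
    have := (mem_cube_iff (by positivity)).1 hya.2.1 i
    rwa [ins_same] at this
  set R := {y : Fin (k + 1) → ℝ | y i ∈ uIcc a b ∧ (fun l => y (i.succAbove l)) ∈ K'} with hR
  set T := {y : Fin (k + 1) → ℝ | y i ∈ Icc α β ∧ (fun l => y (i.succAbove l)) ∈ K'} with hT
  have hRvol : volume R = volume (uIcc a b) * volume K' :=
    volume_box i measurableSet_uIcc hK'm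
  have hTvol : volume T = volume (Icc α β) * volume K' :=
    volume_box i measurableSet_Icc hK'm
  have hRm : MeasurableSet R := by
    have hproj : Measurable (fun (y : Fin (k + 1) → ℝ) (l : Fin k) => y (i.succAbove l)) :=
      measurable_pi_lambda _ fun l => measurable_pi_apply _
    apply MeasurableSet.inter
    · exact measurable_pi_apply i measurableSet_uIcc
    · exact hproj hK'm
  have hRball : R ⊆ closedBall (pr e x₀) (3 * r / 4) := by
    intro y hy
    rw [mem_cube_iff (by positivity)]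
    intro l
    rcases Fin.eq_self_or_eq_succAbove i l with rfl | ⟨l', rfl⟩
    · have h1 : y l ∈ uIcc a b := hy.1
      rw [abs_le] at *
      rw [mem_uIcc] at h1
      rcases h1 with h1 | h1 <;> constructor <;> linarith [h1.1, h1.2]
    · have := hcoord _ hy.2 l'
      linarith
  have hstar := H.star hRm hRball
  have hsub : T ⊆ (fun x : Fin n → ℝ => Function.update (pr e x) i (x j₀)) ''
      (K ∩ pr e ⁻¹' R) := by
    intro y hy
    have hy2 : (fun l => y (i.succAbove l)) ∈ K' := hy.2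
    set y' : Fin k → ℝ := fun l => y (i.succAbove l) with hy'
    obtain ⟨x, hx, hxτ, hxseg⟩ := H.hit hdens (p := ins i (a, y')) (q := ins i (b, y')) hy2.1
      hy2.2.1 (j₀ := j₀) (τ := y i) (by
        intro x hx hxp
        have h1 : α ≤ y i := hy.1.1
        by_contra hcon
        exact hy2.2.2.1 ⟨x, ⟨hx, by show α ≤ x j₀; linarith⟩, hxp⟩) (by
        intro x hx hxq
        have h1 : y i ≤ β := hy.1.2
        by_contra hcon
        exact hy2.2.2.2 ⟨x, ⟨hx, by show x j₀ ≤ β; linarith⟩, hxq⟩)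
    have hother : ∀ l, pr e x (i.succAbove l) = y' l := by
      intro l
      rw [segment_eq_image'] at hxseg
      obtain ⟨θ, -, hθ⟩ := hxseg
      have := congrFun hθ (i.succAbove l)
      simp only [Pi.add_apply, Pi.smul_apply, Pi.sub_apply, ins_succAbove, sub_self, smul_zero,
        add_zero] at this
      exact this.symm
    have hi : pr e x i ∈ uIcc a b := by
      rw [segment_eq_image'] at hxseg
      obtain ⟨θ, hθ1, hθ⟩ := hxseg
      have h1 := congrFun hθ i
      simp only [Pi.add_apply, Pi.smul_apply, Pi.sub_apply, ins_same, smul_eq_mul] at h1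
      rw [← h1, ← segment_eq_uIcc, segment_eq_image']
      exact ⟨θ, hθ1, rfl⟩
    refine ⟨x, ⟨hx, hi, ?_⟩, ?_⟩
    · have : (fun l => pr e x (i.succAbove l)) = y' := funext hother
      rw [this]
      exact hy2
    · ext l
      rcases Fin.eq_self_or_eq_succAbove i l with rfl | ⟨l', rfl⟩
      · show Function.update (pr e x) l (x j₀) l = y l
        rw [Function.update_self, hxτ]
      · show Function.update (pr e x) i (x j₀) (i.succAbove l') = _
        rw [Function.update_of_ne (Fin.succAbove_ne i l'), hother]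
  have hfinal : volume (Icc α β) * volume K' ≤ volume (uIcc a b) * volume K' := by
    rw [← hTvol, ← hRvol]
    exact (measure_mono hsub).trans ((volume_image_le (update_lipschitz e i j₀) _).trans hstar)
  rw [ENNReal.mul_le_mul_iff_left hne hfin, Real.volume_Icc, Real.volume_interval] at hfinal
  have hpos : 0 < β - α := (abs_nonneg _).trans_lt hab
  have := (ENNReal.ofReal_le_ofReal_iff (abs_nonneg _)).1 hfinal
  linarith


theorem update_ins (i : Fin (k + 1)) (a t : ℝ) (y : Fin k → ℝ) :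
    Function.update (ins i (a, y)) i t = ins i (t, y) := by
  ext l
  rcases Fin.eq_self_or_eq_succAbove i l with rfl | ⟨l', rfl⟩
  · rw [Function.update_self, ins_same]
  · rw [Function.update_of_ne (Fin.succAbove_ne i l'), ins_succAbove, ins_succAbove]

/-- The step estimate. -/
theorem Setup.step (H : Setup e S x₀ r h lam ell)
    (hdens : ENNReal.ofReal (((1 + 4 * h / r) ^ (k + 1) - 1) * (3 * r / 2) ^ (k + 1)) <
      μH[(k + 1 : ℕ)] (closedBall x₀ r ∩ S ∩ pr e ⁻¹' closedBall (pr e x₀) (r / 2)))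
    (i : Fin (k + 1)) (j₀ : Fin n) {t α β : ℝ} (ht : |t| < β - α) :
    volume {y : Fin (k + 1) → ℝ | y ∈ closedBall (pr e x₀) (r / 4) ∧
      Function.update y i (y i + t) ∈ closedBall (pr e x₀) (r / 4) ∧
      y ∉ highS e (closedBall x₀ r ∩ S) j₀ α ∧
      Function.update y i (y i + t) ∉ lowS e (closedBall x₀ r ∩ S) j₀ β} = 0 := by
  set B := {y : Fin (k + 1) → ℝ | y ∈ closedBall (pr e x₀) (r / 4) ∧
      Function.update y i (y i + t) ∈ closedBall (pr e x₀) (r / 4) ∧
      y ∉ highS e (closedBall x₀ r ∩ S) j₀ α ∧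
      Function.update y i (y i + t) ∉ lowS e (closedBall x₀ r ∩ S) j₀ β} with hB
  have hupd : Measurable (fun y : Fin (k + 1) → ℝ => Function.update y i (y i + t)) := by
    have : Continuous (fun y : Fin (k + 1) → ℝ => Function.update y i (y i + t)) :=
      continuous_id.update i ((continuous_apply i).add continuous_const)
    exact this.measurable
  have hBm : MeasurableSet B :=
    measurableSet_closedBall.inter ((hupd measurableSet_closedBall).inter
      ((isCompact_highS H.isCompact j₀ α).measurableSet.compl.inter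
        (hupd (isCompact_lowS H.isCompact j₀ β).measurableSet).compl))
  rw [← (ins_measurePreserving i).measure_preimage hBm.nullMeasurableSet,
    Measure.volume_eq_prod, Measure.measure_prod_null ((ins_measurePreserving i).measurable hBm)]
  refine Filter.Eventually.of_forall ?_
  intro a
  have h1 := H.slice hdens i j₀ (a := a) (b := a + t) (α := α) (β := β) (by simpa using ht)
  refine measure_mono_null ?_ h1
  intro y hy
  have hy' : ins i (a, y) ∈ B := hy
  have h2 : Function.update (ins i (a, y)) i (ins i (a, y) i + t) = ins i (a + t, y) := by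
    rw [ins_same, update_ins]
  rw [hB, mem_ofPred_eq, h2] at hy'
  exact hy'

/-- A height function. -/
theorem Setup.exists_u (H : Setup e S x₀ r h lam ell)
    (hdens : ENNReal.ofReal (((1 + 4 * h / r) ^ (k + 1) - 1) * (3 * r / 2) ^ (k + 1)) <
      μH[(k + 1 : ℕ)] (closedBall x₀ r ∩ S ∩ pr e ⁻¹' closedBall (pr e x₀) (r / 2)))
    (j₀ : Fin n) :
    ∃ u : (Fin (k + 1) → ℝ) → ℝ, ∀ᵐ y, y ∈ closedBall (pr e x₀) (r / 4) →
      ∀ x ∈ closedBall x₀ r ∩ S, pr e x = y → x j₀ = u y := by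
  classical
  set K := closedBall x₀ r ∩ S with hKdef
  have hex : ∀ y : Fin (k + 1) → ℝ, ∃ v : ℝ, y ∈ closedBall (pr e x₀) (r / 4) →
      ∃ x ∈ K, pr e x = y ∧ x j₀ = v := by
    intro y
    by_cases hy : y ∈ closedBall (pr e x₀) (r / 4)
    · obtain ⟨x, hx, hxy⟩ := H.surj hdens hy j₀
      exact ⟨x j₀, fun _ => ⟨x, hx, hxy, rfl⟩⟩
    · exact ⟨0, fun h => absurd h hy⟩
  choose u hu using hex
  refine ⟨u, ?_⟩
  have hnull : ∀ p : ℚ × ℚ, (p.1 : ℝ) < p.2 → volume (lowS e K j₀ p.1 ∩ highS e K j₀ p.2 ∩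
      closedBall (pr e x₀) (3 * r / 4)) = 0 := fun p hp => H.uniq j₀ hp
  have hall : ∀ᵐ y : Fin (k + 1) → ℝ, ∀ p : ℚ × ℚ, (p.1 : ℝ) < p.2 →
      y ∉ lowS e K j₀ p.1 ∩ highS e K j₀ p.2 ∩ closedBall (pr e x₀) (3 * r / 4) := by
    rw [ae_all_iff]
    intro p
    by_cases hp : (p.1 : ℝ) < p.2
    · have h1 := hnull p hp
      filter_upwards [measure_eq_zero_iff_ae_notMem.1 h1] with y hy _
      exact hy
    · exact Filter.Eventually.of_forall fun y h => absurd h hp
  filter_upwards [hall] with y hy hyball x hx hxy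
  obtain ⟨x', hx', hxy', hxu⟩ := hu y hyball
  have hr := H.r_pos
  have hyball' : y ∈ closedBall (pr e x₀) (3 * r / 4) :=
    closedBall_subset_closedBall (by linarith) hyball
  by_contra hne
  rw [← hxu] at hne
  rcases lt_or_gt_of_ne hne with hlt | hlt
  · obtain ⟨q1, hq1, hq1'⟩ := exists_rat_btwn hlt
    obtain ⟨q2, hq2, hq2'⟩ := exists_rat_btwn hq1'
    exact hy (q1, q2) hq2 ⟨⟨⟨x, ⟨hx, hq1.le⟩, hxy⟩, ⟨x', ⟨hx', hq2'.le⟩, hxy'⟩⟩, hyball'⟩
  · obtain ⟨q1, hq1, hq1'⟩ := exists_rat_btwn hlt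
    obtain ⟨q2, hq2, hq2'⟩ := exists_rat_btwn hq1'
    exact hy (q1, q2) hq2 ⟨⟨⟨x', ⟨hx', hq1.le⟩, hxy'⟩, ⟨x, ⟨hx, hq2'.le⟩, hxy⟩⟩, hyball'⟩

theorem upd_eq (y : Fin (k + 1) → ℝ) (i : Fin (k + 1)) (t : ℝ) :
    Function.update y i (y i + t) = y + Pi.single i t := by
  ext l
  by_cases hl : l = i
  · subst hl
    simp
  · simp [hl]

theorem Setup.u_step_null (H : Setup e S x₀ r h lam ell)
    (hdens : ENNReal.ofReal (((1 + 4 * h / r) ^ (k + 1) - 1) * (3 * r / 2) ^ (k + 1)) <
      μH[(k + 1 : ℕ)] (closedBall x₀ r ∩ S ∩ pr e ⁻¹' closedBall (pr e x₀) (r / 2)))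
    (j₀ : Fin n) (i : Fin (k + 1)) (t : ℝ) :
    ∀ᵐ y : Fin (k + 1) → ℝ, ∀ p : ℚ × ℚ, |t| < (p.2 : ℝ) - (p.1 : ℝ) →
      ¬ (y ∈ closedBall (pr e x₀) (r / 4) ∧ y + Pi.single i t ∈ closedBall (pr e x₀) (r / 4) ∧
        y ∉ highS e (closedBall x₀ r ∩ S) j₀ p.1 ∧
        y + Pi.single i t ∉ lowS e (closedBall x₀ r ∩ S) j₀ p.2) := by
  rw [ae_all_iff]
  intro p
  by_cases hp : |t| < (p.2 : ℝ) - (p.1 : ℝ)
  · have h1 := H.step hdens i j₀ hp
    filter_upwards [measure_eq_zero_iff_ae_notMem.1 h1] with y hy _ hy'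
    apply hy
    show _ ∧ _ ∧ _ ∧ _
    rw [upd_eq]
    exact hy'
  · exact Filter.Eventually.of_forall fun y h => absurd h hp

/-- The height function is `1`-Lipschitz in each coordinate direction, almost everywhere. -/
theorem Setup.u_step (H : Setup e S x₀ r h lam ell)
    (hdens : ENNReal.ofReal (((1 + 4 * h / r) ^ (k + 1) - 1) * (3 * r / 2) ^ (k + 1)) <
      μH[(k + 1 : ℕ)] (closedBall x₀ r ∩ S ∩ pr e ⁻¹' closedBall (pr e x₀) (r / 2)))
    (j₀ : Fin n) {u : (Fin (k + 1) → ℝ) → ℝ}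
    (hu : ∀ᵐ y : Fin (k + 1) → ℝ, y ∈ closedBall (pr e x₀) (r / 4) →
      ∀ x ∈ closedBall x₀ r ∩ S, pr e x = y → x j₀ = u y) (i : Fin (k + 1)) (t : ℝ) :
    ∀ᵐ y : Fin (k + 1) → ℝ, y ∈ closedBall (pr e x₀) (r / 4) →
      y + Pi.single i t ∈ closedBall (pr e x₀) (r / 4) →
      u (y + Pi.single i t) ≤ u y + |t| := by
  have hnull := H.u_step_null hdens j₀ i t
  have hu2 : ∀ᵐ y : Fin (k + 1) → ℝ, y + Pi.single i t ∈ closedBall (pr e x₀) (r / 4) →
      ∀ x ∈ closedBall x₀ r ∩ S, pr e x = y + Pi.single i t → x j₀ = u (y + Pi.single i t) :=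
    (measurePreserving_add_right volume (Pi.single i t : Fin (k + 1) → ℝ)).quasiMeasurePreserving.ae
      hu
  filter_upwards [hu, hu2, hnull] with y h1 h2 h3 hy hy'
  by_contra hcon
  push Not at hcon
  obtain ⟨q1, hq1, hq1'⟩ := exists_rat_btwn (show u y < u (y + Pi.single i t) - |t| by linarith)
  obtain ⟨q2, hq2, hq2'⟩ := exists_rat_btwn (show (q1 : ℝ) + |t| < u (y + Pi.single i t) by linarith)
  refine h3 (q1, q2) (by show |t| < (q2 : ℝ) - q1; linarith) ⟨hy, hy', ?_, ?_⟩
  · rintro ⟨x, ⟨hx, hxq⟩, hxy⟩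
    have h4 := h1 hy x hx hxy
    have h5 : (q1 : ℝ) ≤ x j₀ := hxq
    linarith
  · rintro ⟨x, ⟨hx, hxq⟩, hxy⟩
    have h4 := h2 hy' x hx hxy
    have h5 : x j₀ ≤ (q2 : ℝ) := hxq
    linarith

/-- Chaining over the coordinates. -/
theorem Setup.u_chain (H : Setup e S x₀ r h lam ell)
    (hdens : ENNReal.ofReal (((1 + 4 * h / r) ^ (k + 1) - 1) * (3 * r / 2) ^ (k + 1)) <
      μH[(k + 1 : ℕ)] (closedBall x₀ r ∩ S ∩ pr e ⁻¹' closedBall (pr e x₀) (r / 2)))
    (j₀ : Fin n) {u : (Fin (k + 1) → ℝ) → ℝ}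
    (hu : ∀ᵐ y : Fin (k + 1) → ℝ, y ∈ closedBall (pr e x₀) (r / 4) →
      ∀ x ∈ closedBall x₀ r ∩ S, pr e x = y → x j₀ = u y) {t : Fin (k + 1) → ℝ}
    (ht : ∀ i, |t i| ≤ r / 8) (s : Finset (Fin (k + 1))) :
    ∀ᵐ y : Fin (k + 1) → ℝ, y ∈ closedBall (pr e x₀) (r / 8) →
      u (y + ∑ i ∈ s, Pi.single i (t i)) ≤ u y + ∑ i ∈ s, |t i| := by
  have hr := H.r_pos
  have hin : ∀ (s : Finset (Fin (k + 1))) (y : Fin (k + 1) → ℝ),
      y ∈ closedBall (pr e x₀) (r / 8) →
      y + ∑ i ∈ s, Pi.single i (t i) ∈ closedBall (pr e x₀) (r / 4) := by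
    intro s y hy
    rw [mem_cube_iff (by positivity)] at hy ⊢
    intro l
    have h1 : (∑ i ∈ s, (Pi.single i (t i) : Fin (k + 1) → ℝ)) l = if l ∈ s then t l else 0 := by
      rw [Finset.sum_apply]
      simp [Pi.single_apply]
    have h2 : |(∑ i ∈ s, (Pi.single i (t i) : Fin (k + 1) → ℝ)) l| ≤ r / 8 := by
      rw [h1]
      split_ifs
      · exact ht l
      · rw [abs_zero]
        positivity
    rw [Pi.add_apply]
    have h3 : y l + (∑ i ∈ s, (Pi.single i (t i) : Fin (k + 1) → ℝ)) l - pr e x₀ l =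
      (y l - pr e x₀ l) + (∑ i ∈ s, (Pi.single i (t i) : Fin (k + 1) → ℝ)) l := by ring
    rw [h3]
    refine (abs_add_le _ _).trans ?_
    have := hy l
    linarith
  induction s using Finset.induction_on with
  | empty =>
    refine Filter.Eventually.of_forall ?_
    intro y _
    simp
  | insert i s his ih =>
    have hstep := H.u_step hdens j₀ hu i (t i)
    have hstep' : ∀ᵐ y : Fin (k + 1) → ℝ,
        y + ∑ l ∈ s, Pi.single l (t l) ∈ closedBall (pr e x₀) (r / 4) →
        y + ∑ l ∈ s, Pi.single l (t l) + Pi.single i (t i) ∈ closedBall (pr e x₀) (r / 4) →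
        u (y + ∑ l ∈ s, Pi.single l (t l) + Pi.single i (t i)) ≤
          u (y + ∑ l ∈ s, Pi.single l (t l)) + |t i| :=
      (measurePreserving_add_right volume
        (∑ l ∈ s, Pi.single l (t l) : Fin (k + 1) → ℝ)).quasiMeasurePreserving.ae hstep
    filter_upwards [ih, hstep'] with y h1 h2 hy
    have h3 : y + ∑ l ∈ insert i s, Pi.single l (t l) =
        y + ∑ l ∈ s, Pi.single l (t l) + Pi.single i (t i) := by
      rw [Finset.sum_insert his]
      abel
    have h4 := hin (insert i s) y hy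
    rw [h3] at h4 ⊢
    rw [Finset.sum_insert his]
    have h5 := h2 (hin s y hy) h4
    have h6 := h1 hy
    linarith


/-- Two sets of positive measure meet after a suitable translation. -/
theorem exists_translate {A B : Set (Fin (k + 1) → ℝ)} (hA : MeasurableSet A)
    (hB : MeasurableSet B) (hA0 : volume A ≠ 0) (hB0 : volume B ≠ 0) :
    ∃ v : Fin (k + 1) → ℝ, volume (A ∩ (fun y => y + v) ⁻¹' B) ≠ 0 := by
  by_contra hcon
  push Not at hcon
  set Z : Set ((Fin (k + 1) → ℝ) × (Fin (k + 1) → ℝ)) := {p | p.2 ∈ A ∧ p.2 + p.1 ∈ B} with hZ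
  have hZm : MeasurableSet Z :=
    (measurable_snd hA).inter ((measurable_snd.add measurable_fst) hB)
  have h1 : (volume.prod volume) Z = 0 := by
    rw [Measure.prod_apply hZm]
    have : ∀ v : Fin (k + 1) → ℝ, volume (Prod.mk v ⁻¹' Z) = 0 := fun v => hcon v
    simp [this]
  have h2 : (volume.prod volume) Z = volume A * volume B := by
    rw [Measure.prod_apply_symm hZm]
    have h3 : ∀ y : Fin (k + 1) → ℝ, volume ((fun v => (v, y)) ⁻¹' Z) =
        A.indicator (fun _ => volume B) y := by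
      intro y
      by_cases hy : y ∈ A
      · rw [indicator_of_mem hy]
        have h4 : (fun v => (v, y)) ⁻¹' Z = (fun v => y + v) ⁻¹' B := by
          ext v
          exact ⟨fun h => h.2, fun h => ⟨hy, h⟩⟩
        rw [h4, measure_preimage_add]
      · rw [indicator_of_notMem hy]
        have h4 : (fun v => (v, y)) ⁻¹' Z = ∅ := by
          rw [eq_empty_iff_forall_notMem]
          exact fun v h => hy h.1
        rw [h4, measure_empty]
    simp_rw [h3]
    rw [lintegral_indicator hA, setLIntegral_const, mul_comm]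
  rw [h2] at h1
  rcases mul_eq_zero.1 h1 with h | h
  · exact hA0 h
  · exact hB0 h

/-- The interior estimate. -/
theorem Setup.main (H : Setup e S x₀ r h lam ell)
    (hdens : ENNReal.ofReal (((1 + 4 * h / r) ^ (k + 1) - 1) * (3 * r / 2) ^ (k + 1)) <
      μH[(k + 1 : ℕ)] (closedBall x₀ r ∩ S ∩ pr e ⁻¹' closedBall (pr e x₀) (r / 2)))
    (hred : ∀ x ∈ S, ∀ ρ > 0, 0 < μH[(k + 1 : ℕ)] (closedBall x ρ ∩ S))
    {x₁ x₂ : Fin n → ℝ} (hx₁ : x₁ ∈ S) (hx₂ : x₂ ∈ S) (h₁ : x₁ ∈ ball x₀ (r / 32))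
    (h₂ : x₂ ∈ ball x₀ (r / 32)) (j₀ : Fin n) :
    x₂ j₀ - x₁ j₀ ≤ ∑ i, |x₂ (e i) - x₁ (e i)| := by
  by_contra hcon
  push Not at hcon
  have hr := H.r_pos
  set K := closedBall x₀ r ∩ S with hKdef
  set g := x₂ j₀ - x₁ j₀ - ∑ i, |x₂ (e i) - x₁ (e i)| with hg
  have hgpos : 0 < g := by linarith
  set δ : ℝ := min (r / 32) (g / (2 * (2 * (k : ℝ) + 4))) with hδ
  have hδ1 : δ ≤ r / 32 := min_le_left _ _
  have hδ2 : (2 * (k : ℝ) + 4) * δ ≤ g / 2 := by
    have h1 : δ ≤ g / (2 * (2 * (k : ℝ) + 4)) := min_le_right _ _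
    have h2 : 0 < 2 * (k : ℝ) + 4 := by positivity
    rw [le_div_iff₀ (by positivity)] at h1
    linarith
  have hδpos : 0 < δ := lt_min (by positivity) (by positivity)
  -- the two pieces
  have hpiece : ∀ x : Fin n → ℝ, x ∈ S → x ∈ ball x₀ (r / 32) →
      MeasurableSet (pr e '' (closedBall x δ ∩ S)) ∧ volume (pr e '' (closedBall x δ ∩ S)) ≠ 0 ∧
      (closedBall x δ ∩ S ⊆ K) ∧
      (pr e '' (closedBall x δ ∩ S) ⊆ closedBall (pr e x₀) (r / 16)) := by
    intro x hxS hx
    have hsub : closedBall x δ ∩ S ⊆ closedBall x₀ (r / 16) := by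
      intro z hz
      have h1 := mem_closedBall.1 hz.1
      have h2 := mem_ball.1 hx
      rw [mem_closedBall]
      calc dist z x₀ ≤ dist z x + dist x x₀ := dist_triangle _ _ _
        _ ≤ r / 16 := by linarith
    have hsubK : closedBall x δ ∩ S ⊆ K := fun z hz =>
      ⟨closedBall_subset_closedBall (by linarith) (hsub hz), hz.2⟩
    have himg : pr e '' (closedBall x δ ∩ S) ⊆ closedBall (pr e x₀) (r / 16) := by
      rintro _ ⟨z, hz, rfl⟩
      have h1 := mem_closedBall.1 (hsub hz)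
      rw [mem_closedBall]
      have := (pr_lipschitz e).dist_le_mul z x₀
      rw [NNReal.coe_one, one_mul] at this
      linarith
    have hcpt : IsCompact (pr e '' (closedBall x δ ∩ S)) :=
      ((isCompact_closedBall x δ).inter_right H.closed).image (pr_lipschitz e).continuous
    refine ⟨hcpt.measurableSet, ?_, hsubK, himg⟩
    intro h0
    have h1 := H.star hcpt.measurableSet
      (himg.trans (closedBall_subset_closedBall (by linarith)))
    rw [h0] at h1
    have h2 : μH[(k + 1 : ℕ)] (closedBall x δ ∩ S) ≤ 0 := by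
      refine le_trans (measure_mono ?_) h1
      intro z hz
      exact ⟨hsubK hz, z, hz, rfl⟩
    exact absurd (hred x hxS δ hδpos) (not_lt.2 h2)
  obtain ⟨hA1m, hA10, hA1K, hA1b⟩ := hpiece x₁ hx₁ h₁
  obtain ⟨hA2m, hA20, hA2K, hA2b⟩ := hpiece x₂ hx₂ h₂
  obtain ⟨v, hv⟩ := exists_translate hA1m hA2m hA10 hA20
  obtain ⟨u, hu⟩ := H.exists_u hdens j₀
  -- bounds on the coordinates of points of the pieces
  have hcoord : ∀ (x : Fin n → ℝ) (y : Fin (k + 1) → ℝ), y ∈ pr e '' (closedBall x δ ∩ S) →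
      ∀ i, |y i - x (e i)| ≤ δ := by
    rintro x _ ⟨z, hz, rfl⟩ i
    exact (mem_cube_iff hδpos.le).1 hz.1 (e i)
  obtain ⟨y₀, hy₀⟩ : (pr e '' (closedBall x₁ δ ∩ S) ∩
      (fun y => y + v) ⁻¹' (pr e '' (closedBall x₂ δ ∩ S))).Nonempty := by
    rw [nonempty_iff_ne_empty]
    intro h0
    rw [h0, measure_empty] at hv
    exact hv rfl
  have hvi : ∀ i, |v i| ≤ |x₂ (e i) - x₁ (e i)| + 2 * δ := by
    intro i
    have h1 := hcoord x₁ y₀ hy₀.1 i
    have h2 := hcoord x₂ (y₀ + v) hy₀.2 i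
    rw [Pi.add_apply] at h2
    have h3 : v i = (y₀ i + v i - x₂ (e i)) + (x₂ (e i) - x₁ (e i)) - (y₀ i - x₁ (e i)) := by ring
    rw [h3]
    refine (abs_sub _ _).trans ?_
    refine (add_le_add (abs_add_le _ _) le_rfl).trans ?_
    linarith
  have hvr : ∀ i, |v i| ≤ r / 8 := by
    intro i
    have h1 := hA1b hy₀.1
    have h2 := hA2b hy₀.2
    rw [mem_cube_iff (by positivity)] at h1 h2
    have h3 := h1 i
    have h4 : |y₀ i + v i - pr e x₀ i| ≤ r / 16 := h2 i
    have h5 : v i = (y₀ i + v i - pr e x₀ i) - (y₀ i - pr e x₀ i) := by ring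
    rw [h5]
    refine (abs_sub _ _).trans ?_
    linarith
  have hchain := H.u_chain hdens j₀ hu hvr Finset.univ
  have hsum : ∑ i, (Pi.single i (v i) : Fin (k + 1) → ℝ) = v := Finset.univ_sum_single v
  rw [hsum] at hchain
  have hu2 : ∀ᵐ y : Fin (k + 1) → ℝ, y + v ∈ closedBall (pr e x₀) (r / 4) →
      ∀ x ∈ closedBall x₀ r ∩ S, pr e x = y + v → x j₀ = u (y + v) :=
    (measurePreserving_add_right volume v).quasiMeasurePreserving.ae hu
  have hfreq : ∃ᵐ y : Fin (k + 1) → ℝ, y ∈ pr e '' (closedBall x₁ δ ∩ S) ∩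
      (fun y => y + v) ⁻¹' (pr e '' (closedBall x₂ δ ∩ S)) := by
    rw [frequently_ae_mem_iff]
    exact hv
  obtain ⟨y, hy, hy1, hy2, hy3⟩ := (hfreq.and_eventually (hu.and (hu2.and hchain))).exists
  obtain ⟨z₁, hz₁, hz₁y⟩ := hy.1
  obtain ⟨z₂, hz₂, hz₂y⟩ := hy.2
  have hb1 : y ∈ closedBall (pr e x₀) (r / 16) := hA1b hy.1
  have hb2 : y + v ∈ closedBall (pr e x₀) (r / 16) := hA2b hy.2
  have e1 := hy1 (closedBall_subset_closedBall (by linarith) hb1) z₁ (hA1K hz₁) hz₁y
  have e2 := hy2 (closedBall_subset_closedBall (by linarith) hb2) z₂ (hA2K hz₂) hz₂y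
  have e3 := hy3 (closedBall_subset_closedBall (by linarith) hb1)
  have e4 := abs_le.1 ((mem_cube_iff hδpos.le).1 hz₁.1 j₀)
  have e5 := abs_le.1 ((mem_cube_iff hδpos.le).1 hz₂.1 j₀)
  have e6 : ∑ i, |v i| ≤ ∑ i, (|x₂ (e i) - x₁ (e i)| + 2 * δ) :=
    Finset.sum_le_sum fun i _ => hvi i
  rw [Finset.sum_add_distrib, Finset.sum_const, Finset.card_univ, Fintype.card_fin,
    nsmul_eq_mul] at e6
  push_cast at e6
  have e7 : x₂ j₀ - x₁ j₀ ≤ 2 * δ + ∑ i, |v i| := by linarith
  have e8 : g ≤ (2 * (k : ℝ) + 4) * δ := by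
    have : g = x₂ j₀ - x₁ j₀ - ∑ i, |x₂ (e i) - x₁ (e i)| := hg
    nlinarith
  linarith

end Directional

section Final

variable {m n : ℕ}

/-- The upper density of `S` is bounded below almost everywhere. -/
theorem density (hm : 1 ≤ m) {S : Set (Fin n → ℝ)} (hS : IsClosed S)
    (hfin : ∀ c r, μH[m] (closedBall c r ∩ S) < ∞) :
    ∀ᵐ x ∂((μH[m] : Measure (Fin n → ℝ)).restrict S), ∀ ρ₀ > 0, ∃ ρ, 0 < ρ ∧ ρ < ρ₀ ∧
      ENNReal.ofReal ((ρ / 2) ^ m) ≤ μH[m] (closedBall x ρ ∩ S) := by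
  have hmpos : (0 : ℝ) < m := by exact_mod_cast hm
  set μ : Measure (Fin n → ℝ) := μH[m] with hμ
  have hsing : ∀ t : Set (Fin n → ℝ), t.Subsingleton → μ t = 0 := by
    intro t ht
    have : NullSingletonClass μ := nullSingletonClass_hausdorff _ hmpos
    exact ht.measure_zero μ
  rw [ae_restrict_iff' hS.measurableSet]
  have hcover : {x | ¬ (x ∈ S → ∀ ρ₀ > 0, ∃ ρ, 0 < ρ ∧ ρ < ρ₀ ∧
      ENNReal.ofReal ((ρ / 2) ^ m) ≤ μ (closedBall x ρ ∩ S))} ⊆
      ⋃ (k : ℕ) (N : ℕ), {x | x ∈ S ∧ x ∈ closedBall 0 (N : ℝ) ∧ ∀ ρ, 0 < ρ → ρ < 1 / ((k : ℝ) + 1) →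
        μ (closedBall x ρ ∩ S) < ENNReal.ofReal ((ρ / 2) ^ m)} := by
    intro x hx
    simp only [mem_ofPred_eq] at hx
    push Not at hx
    obtain ⟨hxS, ρ₀, hρ₀, hx⟩ := hx
    obtain ⟨k, hk⟩ := exists_nat_one_div_lt hρ₀
    obtain ⟨N, hN⟩ := exists_nat_ge (dist x 0)
    rw [mem_iUnion₂]
    refine ⟨k, N, hxS, mem_closedBall.2 hN, ?_⟩
    intro ρ h1 h2
    exact hx ρ h1 (h2.trans hk)
  refine measure_mono_null hcover ?_
  rw [measure_iUnion_null_iff]
  intro k
  rw [measure_iUnion_null_iff]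
  intro N
  set B := {x | x ∈ S ∧ x ∈ closedBall 0 (N : ℝ) ∧ ∀ ρ, 0 < ρ → ρ < 1 / ((k : ℝ) + 1) →
        μ (closedBall x ρ ∩ S) < ENNReal.ofReal ((ρ / 2) ^ m)} with hB
  have hBfin : μ B ≠ ∞ := by
    refine ((measure_mono ?_).trans_lt (hfin 0 N)).ne
    intro x hx
    exact ⟨hx.2.1, hx.1⟩
  have hkpos : (0 : ℝ) < 1 / ((k : ℝ) + 1) := by positivity
  -- the key inequality
  have hkey : 2 ^ m * μ B ≤ μ B := by
    have h1 : μ B = ⨆ (r : ℝ≥0∞) (_ : 0 < r),
        ⨅ (t : ℕ → Set (Fin n → ℝ)) (_ : B ⊆ ⋃ n, t n) (_ : ∀ n, ediam (t n) ≤ r),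
          ∑' n, ⨆ _ : (t n).Nonempty, ediam (t n) ^ (m : ℝ) := hausdorffMeasure_apply _ _
    have h2 : 2 ^ m * μ B ≤ ⨅ (t : ℕ → Set (Fin n → ℝ)) (_ : B ⊆ ⋃ n, t n)
        (_ : ∀ n, ediam (t n) ≤ ENNReal.ofReal (1 / ((k : ℝ) + 1) / 2)),
          ∑' n, ⨆ _ : (t n).Nonempty, ediam (t n) ^ (m : ℝ) := by
      refine le_iInf fun t => le_iInf fun ht => le_iInf fun hdiam => ?_
      have h3 : μ B ≤ ∑' i, μ (B ∩ t i) := by
        refine (measure_mono ?_).trans (measure_iUnion_le _)
        intro x hx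
        obtain ⟨i, hi⟩ := mem_iUnion.1 (ht hx)
        exact mem_iUnion.2 ⟨i, hx, hi⟩
      calc 2 ^ m * μ B ≤ 2 ^ m * ∑' i, μ (B ∩ t i) := by gcongr
        _ = ∑' i, 2 ^ m * μ (B ∩ t i) := ENNReal.tsum_mul_left.symm
        _ ≤ ∑' i, ⨆ _ : (t i).Nonempty, ediam (t i) ^ (m : ℝ) := by
          refine ENNReal.tsum_le_tsum fun i => ?_
          rcases (B ∩ t i).eq_empty_or_nonempty with hem | ⟨x, hxB, hxt⟩
          · rw [hem, measure_empty, mul_zero]
            exact zero_le
          · rw [iSup_pos ⟨x, hxt⟩]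
            have hd := hdiam i
            have hdfin : ediam (t i) ≠ ∞ := (hd.trans_lt ENNReal.ofReal_lt_top).ne
            rcases eq_or_ne (ediam (t i)) 0 with hd0 | hd0
            · have : (B ∩ t i).Subsingleton :=
                (ediam_eq_zero_iff.1 hd0).anti inter_subset_right
              rw [hsing _ this, mul_zero]
              exact zero_le
            · set d := (ediam (t i)).toReal with hdd
              have hdpos : 0 < d := ENNReal.toReal_pos hd0 hdfin
              have hde : ediam (t i) = ENNReal.ofReal d := (ENNReal.ofReal_toReal hdfin).symm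
              have hdle : d ≤ 1 / ((k : ℝ) + 1) / 2 := by
                rw [hde, ENNReal.ofReal_le_ofReal_iff (by positivity)] at hd
                exact hd
              have hsub : B ∩ t i ⊆ closedBall x d ∩ S := by
                rintro z ⟨hzB, hzt⟩
                refine ⟨?_, hzB.1⟩
                rw [mem_closedBall, dist_edist]
                exact ENNReal.toReal_mono hdfin (edist_le_ediam_of_mem hzt hxt)
              have h4 := hxB.2.2 d hdpos (by linarith)
              have h5 : μ (B ∩ t i) ≤ ENNReal.ofReal ((d / 2) ^ m) :=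
                (measure_mono hsub).trans h4.le
              calc 2 ^ m * μ (B ∩ t i) ≤ 2 ^ m * ENNReal.ofReal ((d / 2) ^ m) := by gcongr
                _ = ediam (t i) ^ (m : ℝ) := by
                  rw [hde, ENNReal.rpow_natCast, ← ENNReal.ofReal_pow hdpos.le]
                  have : (2 : ℝ≥0∞) ^ m = ENNReal.ofReal (2 ^ m) := by
                    rw [ENNReal.ofReal_pow (by norm_num)]
                    simp
                  rw [this, ← ENNReal.ofReal_mul (by positivity)]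
                  congr 1
                  rw [div_pow, mul_div_cancel₀]
                  positivity
    refine h2.trans ?_
    conv_rhs => rw [h1]
    exact le_iSup₂_of_le (ENNReal.ofReal (1 / ((k : ℝ) + 1) / 2))
      (ENNReal.ofReal_pos.2 (by positivity)) le_rfl
  by_contra hne
  have h2m : (2 : ℝ≥0∞) ^ m ≤ 1 := by
    have : 2 ^ m * μ B ≤ 1 * μ B := by rwa [one_mul]
    exact (ENNReal.mul_le_mul_iff_left hne hBfin).1 this
  have h2m' : (1 : ℝ≥0∞) < 2 ^ m := one_lt_pow₀ ENNReal.one_lt_two (by omega)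
  exact absurd h2m (not_le.2 h2m')


theorem exists_graph {T : Submodule ℝ (Fin n → ℝ)} (hT : StrictlyFlat m T) :
    ∃ (e : Fin m → Fin n) (lam : ℝ) (A : Fin n → (Fin m → ℝ) → ℝ), Function.Injective e ∧
      0 ≤ lam ∧ lam < 1 ∧ (∀ j, ∀ y y' : Fin m → ℝ, |A j y - A j y'| ≤ lam * ‖y - y'‖) ∧
      (∀ j ∉ range e, ∀ w ∈ T, w j = A j (pr e w)) := by
  classical
  obtain ⟨hrank, I, lam, hI, hlam, hflat⟩ := hT
  set e : Fin m → Fin n := fun i => I.orderEmbOfFin hI i with he
  have hrange : range e = I := Finset.range_orderEmbOfFin I hI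
  have hinj : Function.Injective e := (I.orderEmbOfFin hI).injective
  -- the projection as a linear map
  let p : T →ₗ[ℝ] (Fin m → ℝ) :=
    { toFun := fun w => pr e w.1
      map_add' := fun _ _ => rfl
      map_smul' := fun _ _ => rfl }
  have hpinj : Function.Injective p := by
    rw [← LinearMap.ker_eq_bot, LinearMap.ker_eq_bot']
    intro w hw
    have h0 : ∀ i ∈ I, w.1 i = 0 := by
      intro i hi
      have : i ∈ range e := by rw [hrange]; exact hi
      obtain ⟨l, rfl⟩ := this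
      exact congrFun hw l
    apply Subtype.ext
    ext j
    by_cases hj : j ∈ I
    · exact h0 j hj
    · obtain ⟨i, hi, hle⟩ := hflat w.1 w.2 j hj
      rw [h0 i hi, abs_zero, mul_zero] at hle
      exact abs_nonpos_iff.1 hle
  let Φ : T ≃ₗ[ℝ] (Fin m → ℝ) := LinearEquiv.ofInjectiveOfFinrankEq p hpinj (by
    rw [hrank, Module.finrank_fin_fun])
  have hΦ : ∀ w : T, Φ w = pr e w.1 := fun w => rfl
  refine ⟨e, max lam 0, fun j y => if j ∈ range e then 0 else (Φ.symm y).1 j, hinj,
    le_max_right _ _, max_lt hlam one_pos, ?_, ?_⟩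
  · intro j y y'
    have hpos : 0 ≤ max lam 0 := le_max_right _ _
    by_cases hj : j ∈ range e
    · simp only [if_pos hj, sub_self, abs_zero]
      positivity
    · simp only [if_neg hj]
      have h1 : (Φ.symm y).1 j - (Φ.symm y').1 j = (Φ.symm (y - y')).1 j := by
        rw [map_sub]
        rfl
      rw [h1]
      have hjI : j ∉ I := by
        intro h
        apply hj
        rw [hrange]
        exact h
      obtain ⟨i, hi, hle⟩ := hflat _ (Φ.symm (y - y')).2 j hjI
      refine hle.trans ?_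
      have : i ∈ range e := by rw [hrange]; exact hi
      obtain ⟨l, rfl⟩ := this
      have h2 : (Φ.symm (y - y')).1 (e l) = (y - y') l := by
        have h3 := hΦ (Φ.symm (y - y'))
        rw [LinearEquiv.apply_symm_apply] at h3
        exact (congrFun h3 l).symm
      rw [h2]
      have h4 : |(y - y') l| ≤ ‖y - y'‖ := norm_le_pi_norm (y - y') l
      have h5 : lam ≤ max lam 0 := le_max_left _ _
      have h6 := abs_nonneg ((y - y') l)
      nlinarith
  · intro j hj w hw
    simp only [if_neg hj]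
    have h1 : Φ.symm (pr e w) = ⟨w, hw⟩ := by
      rw [LinearEquiv.symm_apply_eq]
      rfl
    rw [h1]

/-- From the coordinate inequality to a Lipschitz graph. -/
theorem isLipschitzGraph_of_le {e : Fin m → Fin n} (he : Function.Injective e)
    {G : Set (Fin n → ℝ)}
    (hG : ∀ x₁ ∈ G, ∀ x₂ ∈ G, ∀ j, x₂ j - x₁ j ≤ ∑ i, |x₂ (e i) - x₁ (e i)|) :
    ∃ P : Submodule ℝ (Fin n → ℝ), Module.finrank ℝ P = m ∧ IsLipschitzGraph P G := by
  classical
  -- the coordinate plane
  let ι : (Fin m → ℝ) →ₗ[ℝ] (Fin n → ℝ) :=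
    { toFun := fun y => Function.extend e y 0
      map_add' := by
        intro y z
        ext j
        by_cases hj : j ∈ range e
        · obtain ⟨i, rfl⟩ := hj
          simp [he.extend_apply]
        · simp [Function.extend_apply' _ _ _ hj]
      map_smul' := by
        intro c y
        ext j
        by_cases hj : j ∈ range e
        · obtain ⟨i, rfl⟩ := hj
          simp [he.extend_apply]
        · simp [Function.extend_apply' _ _ _ hj] }
  have hι : ∀ y i, ι y (e i) = y i := fun y i => he.extend_apply _ _ _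
  have hι' : ∀ y, ∀ j ∉ range e, ι y j = 0 := fun y j hj => Function.extend_apply' _ _ _ hj
  have hιinj : Function.Injective ι := by
    intro y z hyz
    ext i
    rw [← hι y i, ← hι z i, hyz]
  let q : (Fin n → ℝ) →ₗ[ℝ] (Fin m → ℝ) :=
    { toFun := fun x => pr e x
      map_add' := fun _ _ => rfl
      map_smul' := fun _ _ => rfl }
  have hqι : ∀ y, q (ι y) = y := fun y => funext fun i => hι y i
  refine ⟨LinearMap.range ι, ?_, LinearMap.ker q, ?_, ?_⟩
  · rw [LinearMap.finrank_range_of_inj hιinj, Module.finrank_fin_fun]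
  · constructor
    · rw [Submodule.disjoint_def]
      rintro _ ⟨y, rfl⟩ hy
      have : y = 0 := by
        rw [← hqι y]
        exact hy
      rw [this, map_zero]
    · rw [codisjoint_iff, eq_top_iff]
      intro x _
      rw [Submodule.mem_sup]
      refine ⟨ι (q x), ⟨q x, rfl⟩, x - ι (q x), ?_, by abel⟩
      rw [LinearMap.mem_ker, map_sub, hqι, sub_self]
  -- the graph map
  · have hbound : ∀ x₁ ∈ G, ∀ x₂ ∈ G, ∀ j, |x₂ j - x₁ j| ≤ (m : ℝ) * ‖ι (q x₂) - ι (q x₁)‖ := by
      intro x₁ h₁ x₂ h₂ j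
      have h3 : ∑ i, |x₂ (e i) - x₁ (e i)| ≤ (m : ℝ) * ‖ι (q x₂) - ι (q x₁)‖ := by
        calc ∑ i, |x₂ (e i) - x₁ (e i)| ≤ ∑ _i : Fin m, ‖ι (q x₂) - ι (q x₁)‖ := by
              refine Finset.sum_le_sum fun i _ => ?_
              have h4 := norm_le_pi_norm (ι (q x₂) - ι (q x₁)) (e i)
              rw [Pi.sub_apply, hι, hι] at h4
              exact h4
          _ = (m : ℝ) * ‖ι (q x₂) - ι (q x₁)‖ := by
              rw [Finset.sum_const, Finset.card_univ, Fintype.card_fin, nsmul_eq_mul]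
      rw [abs_le]
      have h5 := hG x₁ h₁ x₂ h₂ j
      have h6 := hG x₂ h₂ x₁ h₁ j
      have h7 : ∑ i, |x₁ (e i) - x₂ (e i)| = ∑ i, |x₂ (e i) - x₁ (e i)| :=
        Finset.sum_congr rfl fun i _ => abs_sub_comm _ _
      constructor <;> linarith
    let D : Set (Fin n → ℝ) := (fun x => ι (q x)) '' G
    have hD : ∀ y ∈ D, ∃ x ∈ G, ι (q x) = y := fun y hy => hy
    choose! X hXG hXy using hD
    refine ⟨D, fun y => X y - y, ?_, ?_, ?_, ?_⟩
    · rintro _ ⟨x, hx, rfl⟩
      exact ⟨q x, rfl⟩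
    · intro y hy
      rw [LinearMap.mem_ker, map_sub]
      conv_lhs => rw [← hXy y hy]
      rw [hXy y hy]
      rw [← hXy y hy, hqι, hXy y hy, sub_self]
    · refine ⟨(m : ℝ≥0) + 1, LipschitzOnWith.of_dist_le_mul ?_⟩
      intro y hy y' hy'
      have h1 : ‖X y - X y'‖ ≤ (m : ℝ) * ‖y - y'‖ := by
        rw [pi_norm_le_iff_of_nonneg (by positivity)]
        intro j
        have := hbound (X y') (hXG y' hy') (X y) (hXG y hy) j
        rw [hXy y hy, hXy y' hy'] at this
        exact this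
      rw [dist_eq_norm, dist_eq_norm]
      have h2 : X y - y - (X y' - y') = (X y - X y') - (y - y') := by abel
      rw [h2]
      refine (norm_sub_le _ _).trans ?_
      push_cast
      linarith
    · ext x
      constructor
      · intro hx
        have hy : ι (q x) ∈ D := ⟨x, hx, rfl⟩
        refine ⟨ι (q x), hy, ?_⟩
        have h1 : X (ι (q x)) = x := by
          have h2 : ‖X (ι (q x)) - x‖ ≤ 0 := by
            rw [pi_norm_le_iff_of_nonneg le_rfl]
            intro j
            have h3 := hbound x hx (X (ι (q x))) (hXG _ hy) j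
            rw [hXy _ hy, sub_self, norm_zero, mul_zero] at h3
            exact h3
          exact sub_eq_zero.1 (norm_le_zero_iff.1 h2)
        show ι (q x) + (X (ι (q x)) - ι (q x)) = x
        rw [h1]
        abel
      · rintro ⟨y, hy, rfl⟩
        show y + (X y - y) ∈ G
        rw [add_sub_cancel]
        exact hXG y hy


/-- The pointwise statement. -/
theorem pointwise {k : ℕ} {S : Set (Fin n → ℝ)} (hS : IsMinimizing (k + 1) S)
    (hfin : ∀ c r, μH[(k + 1 : ℕ)] (closedBall c r ∩ S) < ∞)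
    (hred : ∀ x ∈ S, ∀ ρ > 0, 0 < μH[(k + 1 : ℕ)] (closedBall x ρ ∩ S)) {x : Fin n → ℝ}
    (hx : x ∈ S)
    (hdens : ∀ ρ₀ > 0, ∃ ρ, 0 < ρ ∧ ρ < ρ₀ ∧
      ENNReal.ofReal ((ρ / 2) ^ (k + 1)) ≤ μH[(k + 1 : ℕ)] (closedBall x ρ ∩ S))
    {T : Submodule ℝ (Fin n → ℝ)} (hT : StrictlyFlat (k + 1) T) (hxT : IsTangentPlane S x T) :
    ∃ U ∈ 𝓝 x, ∃ P : Submodule ℝ (Fin n → ℝ), Module.finrank ℝ P = k + 1 ∧
      IsLipschitzGraph P (S ∩ U) := by
  obtain ⟨e, lam, A, he, hlam0, hlam1, hAlip, hAT⟩ := exists_graph hT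
  -- choice of ε
  obtain ⟨ε, hε, hε1, hε2⟩ : ∃ ε : ℝ, 0 < ε ∧ 64 * ε ≤ 1 - lam ∧
      ((1 + 16 * ε) ^ (k + 1) - 1) * (3 / 2) ^ (k + 1) < (1 / 4) ^ (k + 1) := by
    have hcont : Continuous (fun ε : ℝ => ((1 + 16 * ε) ^ (k + 1) - 1) * (3 / 2) ^ (k + 1)) := by
      fun_prop
    have h0 : (fun ε : ℝ => ((1 + 16 * ε) ^ (k + 1) - 1) * (3 / 2) ^ (k + 1)) 0 <
        (1 / 4) ^ (k + 1) := by
      simp
    have hev : ∀ᶠ ε : ℝ in 𝓝 0, ((1 + 16 * ε) ^ (k + 1) - 1) * (3 / 2) ^ (k + 1) <
        (1 / 4) ^ (k + 1) := hcont.continuousAt.eventually_lt continuousAt_const h0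
    have hev' : ∀ᶠ ε : ℝ in 𝓝[>] 0, ((1 + 16 * ε) ^ (k + 1) - 1) * (3 / 2) ^ (k + 1) <
        (1 / 4) ^ (k + 1) := hev.filter_mono nhdsWithin_le_nhds
    have hev2 : ∀ᶠ ε : ℝ in 𝓝[>] 0, 64 * ε ≤ 1 - lam := by
      have : ∀ᶠ ε : ℝ in 𝓝 0, 64 * ε < 1 - lam := by
        have hc : Continuous (fun ε : ℝ => 64 * ε) := by fun_prop
        apply hc.continuousAt.eventually_lt continuousAt_const
        simp only [mul_zero]
        linarith
      exact (this.filter_mono nhdsWithin_le_nhds).mono fun _ h => h.le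
    obtain ⟨ε, h1, h2, h3⟩ := (hev'.and (hev2.and self_mem_nhdsWithin)).exists
    exact ⟨ε, h3, h2, h1⟩
  -- the radius
  have hclose := hxT ε hε
  rw [eventually_nhdsWithin_iff, Metric.eventually_nhds_iff] at hclose
  obtain ⟨r₀, hr₀, hclose⟩ := hclose
  obtain ⟨ρ, hρ0, hρ1, hρd⟩ := hdens (r₀ / 4) (by positivity)
  set r := 2 * ρ with hr
  have hrpos : 0 < r := by positivity
  set ell : Fin n → (Fin (k + 1) → ℝ) → ℝ := fun j y => x j + A j (y - pr e x) with hell
  have H : Setup e S x r (4 * ε * r) lam ell := by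
    refine ⟨he, hS.closed, fun f => hS.minimal x r f, hfin x r, hrpos, by positivity, hlam0, ?_,
      ?_, ?_, hx⟩
    · have : 64 * ε * r ≤ (1 - lam) * r := by gcongr
      linarith
    · intro j y y'
      show |x j + A j (y - pr e x) - (x j + A j (y' - pr e x))| ≤ _
      have h1 := hAlip j (y - pr e x) (y' - pr e x)
      rw [sub_sub_sub_cancel_right] at h1
      rwa [add_sub_add_left_eq_sub]
    · rintro x' ⟨hx'r, hx'S⟩ j hj
      have hd : dist x' x < r₀ := by
        have := mem_closedBall.1 hx'r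
        linarith
      have h1 := hclose hd hx'S
      have h2 : ‖x' - x‖ ≤ r := by
        rw [← dist_eq_norm]
        exact mem_closedBall.1 hx'r
      have h3 : infDist (x' - x) (T : Set (Fin n → ℝ)) < 2 * ε * r := by
        calc infDist (x' - x) (T : Set (Fin n → ℝ)) ≤ ε * ‖x' - x‖ := h1
          _ ≤ ε * r := by gcongr
          _ < 2 * ε * r := by nlinarith [mul_pos hε hrpos]
      obtain ⟨w, hwT, hw⟩ := (infDist_lt_iff ⟨0, T.zero_mem⟩).1 h3
      rw [dist_eq_norm] at hw
      have h4 : |(x' - x - w) j| ≤ ‖x' - x - w‖ := norm_le_pi_norm (x' - x - w) j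
      have h5 := hAT j hj w hwT
      have h6 := hAlip j (pr e w) (pr e x' - pr e x)
      have h7 : ‖pr e w - (pr e x' - pr e x)‖ ≤ ‖x' - x - w‖ := by
        have : pr e w - (pr e x' - pr e x) = -(pr e (x' - x - w)) := by
          ext i
          simp [pr]
        rw [this, norm_neg]
        have h8 := pr_lip e (x' - x - w) 0
        have h9 : pr e (0 : Fin n → ℝ) = 0 := rfl
        rwa [h9, sub_zero, sub_zero] at h8
      have h8 : lam * ‖pr e w - (pr e x' - pr e x)‖ ≤ ‖x' - x - w‖ := by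
        have := norm_nonneg (pr e w - (pr e x' - pr e x))
        nlinarith
      show |x' j - (x j + A j (pr e x' - pr e x))| ≤ 4 * ε * r
      have h9 : x' j - (x j + A j (pr e x' - pr e x)) =
          (x' - x - w) j + (A j (pr e w) - A j (pr e x' - pr e x)) := by
        rw [Pi.sub_apply, Pi.sub_apply, h5]
        ring
      rw [h9]
      refine (abs_add_le _ _).trans ?_
      linarith
  have hdens' : ENNReal.ofReal (((1 + 4 * (4 * ε * r) / r) ^ (k + 1) - 1) *
      (3 * r / 2) ^ (k + 1)) <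
      μH[(k + 1 : ℕ)] (closedBall x r ∩ S ∩ pr e ⁻¹' closedBall (pr e x) (r / 2)) := by
    have h1 : closedBall x ρ ∩ S ⊆ closedBall x r ∩ S ∩ pr e ⁻¹' closedBall (pr e x) (r / 2) := by
      rintro z ⟨hz, hzS⟩
      refine ⟨⟨closedBall_subset_closedBall (by linarith) hz, hzS⟩, ?_⟩
      show pr e z ∈ closedBall (pr e x) (r / 2)
      rw [mem_closedBall] at hz ⊢
      have := (pr_lipschitz e).dist_le_mul z x
      rw [NNReal.coe_one, one_mul] at this
      linarith
    refine lt_of_lt_of_le ?_ (hρd.trans (measure_mono h1))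
    rw [ENNReal.ofReal_lt_ofReal_iff (by positivity)]
    have h2 : 1 + 4 * (4 * ε * r) / r = 1 + 16 * ε := by
      field_simp
      ring
    have h3 : (3 * r / 2) ^ (k + 1) = (3 / 2) ^ (k + 1) * r ^ (k + 1) := by
      rw [← mul_pow]
      congr 1
      ring
    have h4 : (ρ / 2) ^ (k + 1) = (1 / 4) ^ (k + 1) * r ^ (k + 1) := by
      rw [← mul_pow]
      congr 1
      rw [hr]
      ring
    rw [h2, h3, h4, ← mul_assoc]
    have : 0 < r ^ (k + 1) := by positivity
    exact mul_lt_mul_of_pos_right hε2 this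
  refine ⟨ball x (r / 32), ball_mem_nhds x (by positivity), ?_⟩
  apply isLipschitzGraph_of_le he
  intro x₁ h₁ x₂ h₂ j
  exact H.main hdens' hred h₁.1 h₂.1 h₁.2 h₂.2 j

/-- Regularity of minimizing sets at points with a strictly flat tangent plane. -/
theorem result (m n : ℕ) (hm : 1 ≤ m) (S : Set (Fin n → ℝ)) (hS : IsMinimizing m S)
    (hfin : ∀ c r, μH[m] (closedBall c r ∩ S) < ∞)
    (hred : ∀ x ∈ S, ∀ ρ > 0, 0 < μH[m] (closedBall x ρ ∩ S)) :
    ∀ᵐ x ∂((μH[m] : Measure (Fin n → ℝ)).restrict S),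
      (∃ T : Submodule ℝ (Fin n → ℝ), StrictlyFlat m T ∧ IsTangentPlane S x T) →
      ∃ U ∈ 𝓝 x, ∃ P : Submodule ℝ (Fin n → ℝ), Module.finrank ℝ P = m ∧
        IsLipschitzGraph P (S ∩ U) := by
  obtain ⟨k, rfl⟩ : ∃ k, m = k + 1 := ⟨m - 1, by omega⟩
  have hSm : ∀ᵐ x ∂((μH[(k + 1 : ℕ)] : Measure (Fin n → ℝ)).restrict S), x ∈ S :=
    ae_restrict_mem hS.closed.measurableSet
  filter_upwards [density hm hS.closed hfin, hSm] with x hx hxS
  rintro ⟨T, hT, hxT⟩
  exact pointwise hS hfin hred hxS hx hT hxT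

end Final

end Pool.Agent.Results.MP_928b88_gt.FlatRegularity
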